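import Pool.Agent.Helper10.C3.Templates

/-!
# Right alternative Malcev-admissible rings of characteristic three: basic facts
-/

namespace Pool.Agent.C3

open Pool.Agent.NACert Pool.Agent.NACert.Fast

variable {A : Type*} [NonUnitalNonAssocRing A]

/-- right alternative Malcev-admissible rings of characteristic three -/
structure RAM3 (A : Type*) [NonUnitalNonAssocRing A] : Prop where
  three : ∀ a : A, (3 : ℕ) • a = 0
  ra : ∀ x y : A, (x * y) * y = x * (y * y)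
  mal : ∀ x y z : A, cmm (cmm x y) (cmm x z) =
    cmm (cmm (cmm x y) z) x + cmm (cmm (cmm y z) x) x + cmm (cmm (cmm z x) x) y

/-- a template is congruent to an expression -/
theorem tm_eq (h3 : ∀ a : A, (3 : ℕ) • a = 0) (t : Tm) (e : E) (ρ : ℕ → A)
    (h : check3 .nil (ofP (t.toP ++ psm (-1) e.p)) [] = true) : t.ev ρ = e.ev ρ := by
  have h1 := ev_of_check3 h3 (ρ := ρ) .nil trivial _ _ h
  rw [ev_ofP, evP_append, evP_psm, evP_p, ev_toP] at h1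
  rw [← sub_eq_zero, ← h1]
  simp [sub_eq_add_neg]

/-- the assignment given by a list -/
@[reducible] def rh (l : List A) : ℕ → A := fun i => l.getD i 0

namespace RAM3

theorem dbl (h : RAM3 A) (a : A) : a + a = -a := by
  have h1 := h.three a
  rw [← sub_eq_zero, sub_neg_eq_add, ← h1, succ_nsmul, two_nsmul]

theorem of_dbl (h : RAM3 A) {a : A} (ha : a + a = 0) : a = 0 := by
  rw [h.dbl] at ha
  exact neg_eq_zero.mp ha

theorem raE' (h : RAM3 A) (ρ : ℕ → A) : NACert.raE.ev ρ = 0 := by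
  have h1 := h.ra (ρ 0) (ρ 1 + ρ 2)
  have h2 := h.ra (ρ 0) (ρ 1)
  have h3 := h.ra (ρ 0) (ρ 2)
  simp only [NACert.raE, E.ev]
  simp only [mul_add, add_mul] at h1
  rw [h2, h3] at h1
  have h4 : ρ 0 * ρ 1 * ρ 2 + ρ 0 * ρ 2 * ρ 1 = ρ 0 * (ρ 1 * ρ 2) + ρ 0 * (ρ 2 * ρ 1) := by
    have h5 : (ρ 0 * (ρ 1 * ρ 1) + ρ 0 * ρ 2 * ρ 1 + (ρ 0 * ρ 1 * ρ 2 + ρ 0 * (ρ 2 * ρ 2)))
        - (ρ 0 * (ρ 1 * ρ 1) + ρ 0 * (ρ 2 * ρ 1) + (ρ 0 * (ρ 1 * ρ 2) + ρ 0 * (ρ 2 * ρ 2))) = 0 := by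
      rw [h1]; exact sub_self _
    rw [← sub_eq_zero, ← h5]
    abel
  rw [← sub_eq_zero] at h4
  rw [← h4]
  abel

theorem ra' (h : RAM3 A) (x y z : A) : ass x y z + ass x z y = 0 :=
  h.raE' (rh [x, y, z])

theorem malE' (h : RAM3 A) (ρ : ℕ → A) : NACert.malE.ev ρ = 0 := by
  have h1 := h.mal (ρ 0 + ρ 1) (ρ 2) (ρ 3)
  have h2 := h.mal (ρ 0) (ρ 2) (ρ 3)
  have h3 := h.mal (ρ 1) (ρ 2) (ρ 3)
  show (cmm (cmm (ρ 0) (ρ 2)) (cmm (ρ 1) (ρ 3)) + cmm (cmm (ρ 1) (ρ 2)) (cmm (ρ 0) (ρ 3))) -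
    (((cmm (cmm (cmm (ρ 0) (ρ 2)) (ρ 3)) (ρ 1) + cmm (cmm (cmm (ρ 1) (ρ 2)) (ρ 3)) (ρ 0)) +
      (cmm (cmm (cmm (ρ 2) (ρ 3)) (ρ 0)) (ρ 1) + cmm (cmm (cmm (ρ 2) (ρ 3)) (ρ 1)) (ρ 0))) +
      (cmm (cmm (cmm (ρ 3) (ρ 0)) (ρ 1)) (ρ 2) + cmm (cmm (cmm (ρ 3) (ρ 1)) (ρ 0)) (ρ 2))) = 0
  simp only [cmm_add_left, cmm_add_right] at h1
  rw [← sub_eq_zero] at h1 h2 h3
  have h4 := congrArg₂ (· - ·) h1 (congrArg₂ (· + ·) h2 h3)
  simp only [add_zero, sub_zero] at h4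
  rw [← h4]
  abel

theorem raT_h (h : RAM3 A) (ρ : ℕ → A) : raT.ev ρ = 0 := by
  rw [tm_eq h.three raT NACert.raE ρ (by decide +kernel)]
  exact h.raE' ρ

theorem raqT_h (h : RAM3 A) (ρ : ℕ → A) : raqT.ev ρ = 0 := by
  rw [tm_eq h.three raqT (.as (.v 0) (.v 1) (.v 1)) ρ (by decide +kernel)]
  show (ρ 0 * ρ 1) * ρ 1 - ρ 0 * (ρ 1 * ρ 1) = 0
  rw [h.ra, sub_self]

theorem malT_h (h : RAM3 A) (ρ : ℕ → A) : malT.ev ρ = 0 := by
  rw [tm_eq h.three malT NACert.malE ρ (by decide +kernel)]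
  exact h.malE' ρ

theorem malqT_h (h : RAM3 A) (ρ : ℕ → A) : malqT.ev ρ = 0 := by
  rw [tm_eq h.three malqT (.sub (.cm (.cm (.v 0) (.v 1)) (.cm (.v 0) (.v 2)))
    (.add (.add (.cm (.cm (.cm (.v 0) (.v 1)) (.v 2)) (.v 0))
      (.cm (.cm (.cm (.v 1) (.v 2)) (.v 0)) (.v 0)))
      (.cm (.cm (.cm (.v 2) (.v 0)) (.v 0)) (.v 1)))) ρ (by decide +kernel)]
  exact sub_eq_zero.mpr (h.mal (ρ 0) (ρ 1) (ρ 2))

end RAM3

/-- the base identities in front of a list of identities -/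
@[reducible] def kbase (K : Kn) : Kn := .cons 0 3 raT (.cons 0 2 raqT (.cons 0 4 malT (.cons 0 3 malqT K)))

theorem RAM3.kb (h : RAM3 A) (K : Kn) (ρ : ℕ → A) (hK : K.Holds ρ) : (kbase K).Holds ρ :=
  ⟨fun _ _ => h.raT_h _, fun _ _ => h.raqT_h _, fun _ _ => h.malT_h _, fun _ _ => h.malqT_h _, hK⟩

/-! ### polarisation -/

theorem pol2 {M : A → A → A} (h1 : ∀ a b c, M (a + b) c = M a c + M b c)
    (h2 : ∀ a b c, M a (b + c) = M a b + M a c) (h0 : ∀ a, M a a = 0) (a b : A) :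
    M a b + M b a = 0 := by
  have h := h0 (a + b)
  rw [h1, h2, h2, h0, h0, zero_add, add_zero] at h
  exact h

theorem pol3 {M : A → A → A → A} (h1 : ∀ a b c d, M (a + b) c d = M a c d + M b c d)
    (h2 : ∀ a b c d, M a (b + c) d = M a b d + M a c d)
    (h3 : ∀ a b c d, M a b (c + d) = M a b c + M a b d) (h0 : ∀ a, M a a a = 0) (a b c : A) :
    M a b c + M a c b + M b a c + M b c a + M c a b + M c b a = 0 := by
  have key : M a b c + M a c b + M b a c + M b c a + M c a b + M c b a =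
      M (a + b + c) (a + b + c) (a + b + c) - M (a + b) (a + b) (a + b) -
        M (a + c) (a + c) (a + c) - M (b + c) (b + c) (b + c) + M a a a + M b b b + M c c c := by
    simp only [h1, h2, h3]
    abel
  rw [key, h0, h0, h0, h0, h0, h0, h0]
  simp

end Pool.Agent.C3
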