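import Pool.Agent.Helper10.C3.Omega

/-!
# The linearised cube vanishes
-/

namespace Pool.Agent.C3

open Pool.Agent.NACert Pool.Agent.NACert.Fast

section ring

variable {A : Type*} [NonUnitalNonAssocRing A]

/-- a polynomial of degree four -/
def XX (a b c y : A) : A := a * y * b * c + a * b * y * c - a * (y * b) * c - a * b * (y * c)

/-- the same polynomial, as an expression -/
@[reducible] def XXE (a b c y : E) : E :=
  .sub (.sub (.add (.mul (.mul (.mul a y) b) c) (.mul (.mul (.mul a b) y) c))
    (.mul (.mul a (.mul y b)) c)) (.mul (.mul a b) (.mul y c))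

/-- the linearised cube -/
def LL (a b y : A) : A := y * a * b + a * y * b + a * b * y

/-- the same polynomial, as an expression -/
@[reducible] def LLE (a b y : E) : E :=
  .add (.add (.mul (.mul y a) b) (.mul (.mul a y) b)) (.mul (.mul a b) y)

/-- sum over the permutations -/
@[reducible] def E.sym3 (f : E → E → E → E) (a b c : E) : E :=
  .add (.add (.add (.add (.add (f a b c) (f a c b)) (f b a c)) (f b c a)) (f c a b)) (f c b a)

/-- certificate -/
def c9C : List ℕ :=
  [137471651840, 68755255296, 137473748992, 137454821120, 137454759680, 68735398144,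
    137474605552, 68752044544, 4297203729, 8624545809, 137471471360, 137472635392, 68755194096,
    68753093136, 137458872320, 68755124224, 270540547, 4295036706, 539029763, 138008330480,
    137756672240, 68735344656, 137723248880, 68735344896, 68768825584, 268628227, 8625524737,
    69273186544, 8606715682, 69021659136, 68736446480, 68722618384, 8608944129, 137975832560,
    68736315920, 8591118353, 69272076784, 4313980929, 268571139, 137454817520, 68738412560,
    68752121856, 8624476177, 69256474864, 8625528833, 137976877040, 137454813680, 137992728576,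
    69273186560, 137992736768, 69274173680, 4328525586, 4329644033, 4329574641, 4329570801,
    69273194496, 4298051601, 137456780016, 68735213344, 8625659905, 138009448448, 4312793841,
    137455792416, 4330688513, 8625590513, 68768894976, 4298055697, 8624480273, 137708433920,
    69003641584, 68737364000, 68738486272, 137724239872, 68752056320, 8607899649, 4296085537,
    69004828672, 69004881920, 69004751360, 69006786800, 4329639937, 138010488832, 8591970337,
    137473552400, 68736327696, 8607698977, 4314832897, 137454756096, 137455800352, 68735340304,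
    137723179040, 137457954816, 68736381440, 68737495040, 536941059, 137457893616, 137454694160,
    137456918528, 8590995441, 68736380960, 4296078065, 137743101952]

/-- certificate -/
def c10C : List ℕ :=
  [137454747888, 137454817280, 68751982832, 69003641072, 4295958545, 68987916272, 8607760625,
    8590987249, 137455865856, 68737363968, 137455792384, 4296024081, 68736380928, 8591052801,
    8590987505, 137455800320]

/-- certificate -/
def czXC : List ℕ :=
  [16842995, 16781329]

/-- certificate -/
def c11C : List ℕ :=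
  [137472700672, 137993646080, 137455865888, 68768886784, 137488298240, 69003775744,
    137474609392, 137474740224, 137456775680, 69003702784, 68753158176, 137472569632, 4297203729,
    137472643104, 8592101409, 8592036593, 137458872320, 138008330480, 137756672240, 69272142064,
    137454821392, 69003772144, 137471590640, 137454817312, 68735344896, 137488302320, 33632004,
    4330557441, 137992605680, 8606773765, 68768821264, 68722618384, 137743040752, 137454694160,
    68768760304, 8608817393, 4313842417, 137741135872, 137488240880, 137442095360, 68751994624,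
    68753223696, 69256474864, 137976877040, 8589996565, 8624476177, 137975894000, 4296077829,
    8593018897, 8590062085, 69273251840, 4329578513, 137993650416, 8624607233, 4329644033,
    4329574641, 16912644, 8624541713, 4312735749, 68751991024, 4329512977, 137471460080,
    137454748400, 8593022993, 137488371712, 68752056320, 137707451120, 4312731681, 68988047344,
    137724358656, 137726263536, 33624580, 8607899649, 137724227616, 8625528833, 137454690800,
    8609800193, 137454686960, 4297191665, 137454755856, 137457954816, 4297134065, 8592039921,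
    8590062321, 8591118321, 68736393472, 137455869968, 137455923456, 68737364480, 137455858176,
    137456971776, 68752175104, 137457893616, 8591118341, 68736446480, 68735340304, 16851460,
    68754141696, 68738351600, 137455857696, 137455792416, 8591122449, 137457963008, 68738412800,
    68737376256, 8590991857]

/-- certificate -/
def c10bC : List ℕ :=
  [131330]

/-- certificate -/
def czLC : List ℕ :=
  [1052912, 65793, 2097424]

theorem RAM3.c9 (h : RAM3 A) (x y w : A) : cmm (XX x x x y) w = 0 :=
  ev_of_check3E h.three (ρ := rh [x, y, w]) (kbase .nil) (h.kb _ _ trivial)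
    (.cm (XXE (.v 0) (.v 0) (.v 0) (.v 1)) (.v 2)) c9C (by decide +kernel)

theorem RAM3.c10 (h : RAM3 A) (x y : A) : XX x x x y * x - XX x x x (x * y) = 0 :=
  ev_of_check3E h.three (ρ := rh [x, y]) (kbase .nil) (h.kb _ _ trivial)
    (.sub (.mul (XXE (.v 0) (.v 0) (.v 0) (.v 1)) (.v 0))
      (XXE (.v 0) (.v 0) (.v 0) (.mul (.v 0) (.v 1)))) c10C (by decide +kernel)

theorem RAM3.zaT_h (h : RAM3 A) {k : A} (hk : Cn k) (ρ : ℕ → A) (h0 : ρ 0 = k) :
    zaT.ev ρ = 0 := by
  rw [tm_eq h.three zaT (.as (.v 0) (.v 1) (.v 2)) ρ (by decide +kernel)]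
  show ass (ρ 0) (ρ 1) (ρ 2) = 0
  rw [h0]; exact hk.l _ _

theorem RAM3.zbT_h (h : RAM3 A) {k : A} (hk : Cn k) (ρ : ℕ → A) (h0 : ρ 0 = k) :
    zbT.ev ρ = 0 := by
  rw [tm_eq h.three zbT (.as (.v 1) (.v 0) (.v 2)) ρ (by decide +kernel)]
  show ass (ρ 1) (ρ 0) (ρ 2) = 0
  rw [h0]; exact hk.m _ _

theorem RAM3.zcT_h (h : RAM3 A) {k : A} (hk : Cn k) (ρ : ℕ → A) (h0 : ρ 0 = k) :
    zcT.ev ρ = 0 := by
  rw [tm_eq h.three zcT (.as (.v 1) (.v 2) (.v 0)) ρ (by decide +kernel)]
  show ass (ρ 1) (ρ 2) (ρ 0) = 0
  rw [h0]; exact hk.r _ _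

/-- the identities of a central element -/
@[reducible] def kz : Kn := .cons 1 1 czT (.cons 1 2 zaT (.cons 1 2 zbT (.cons 1 2 zcT .nil)))

theorem RAM3.kz_h (h : RAM3 A) {k : A} (hk : Cn k) (ρ : ℕ → A) (h0 : ρ 0 = k) : kz.Holds ρ :=
  ⟨fun ρ' h1 => h.czT_h hk.cm ρ' ((h1 0 (by norm_num)).trans h0),
    fun ρ' h1 => h.zaT_h hk ρ' ((h1 0 (by norm_num)).trans h0),
    fun ρ' h1 => h.zbT_h hk ρ' ((h1 0 (by norm_num)).trans h0),
    fun ρ' h1 => h.zcT_h hk ρ' ((h1 0 (by norm_num)).trans h0), trivial⟩

theorem RAM3.czX (h : RAM3 A) {x : A} (hx : Cn x) (y : A) : XX x x x y = 0 :=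
  ev_of_check3E h.three (ρ := rh [x, y]) kz (h.kz_h hx _ rfl)
    (XXE (.v 0) (.v 0) (.v 0) (.v 1)) czXC (by decide +kernel)

theorem RAM3.czL (h : RAM3 A) {x : A} (hx : Cn x) (y : A) : LL x x y = 0 :=
  ev_of_check3E h.three (ρ := rh [x, y]) kz (h.kz_h hx _ rfl)
    (LLE (.v 0) (.v 0) (.v 1)) czLC (by decide +kernel)

theorem RAM3.xT_h (h : RAM3 A) (hX : ∀ x y : A, XX x x x y = 0) (ρ : ℕ → A) :
    xT.ev ρ = 0 := by
  rw [tm_eq h.three xT (XXE (.v 0) (.v 0) (.v 0) (.v 1)) ρ (by decide +kernel)]
  exact hX (ρ 0) (ρ 1)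

theorem RAM3.xLT_h (h : RAM3 A) (hX : ∀ x y : A, XX x x x y = 0) (ρ : ℕ → A) :
    xLT.ev ρ = 0 := by
  rw [tm_eq h.three xLT (E.sym3 (fun a b c => XXE a b c (.v 3)) (.v 0) (.v 1) (.v 2)) ρ
    (by decide +kernel)]
  refine pol3 (M := fun a b c => XX a b c (ρ 3)) ?_ ?_ ?_ (fun a => hX a _) _ _ _
  · intro a b c d; simp only [XX, add_mul, mul_add]; abel
  · intro a b c d; simp only [XX, add_mul, mul_add]; abel
  · intro a b c d; simp only [XX, add_mul, mul_add]; abel

theorem RAM3.c11 (h : RAM3 A) (hX : ∀ x y : A, XX x x x y = 0) (x : A) : InOm (x * x * x) :=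
  fun y z =>
  ev_of_check3E h.three (ρ := rh [x, y, z]) (kbase (.cons 0 2 xT (.cons 0 4 xLT .nil)))
    (h.kb _ _ ⟨fun _ _ => h.xT_h hX _, fun _ _ => h.xLT_h hX _, trivial⟩)
    (.add (.as (.mul (.mul (.v 0) (.v 0)) (.v 0)) (.v 1) (.v 2))
      (.as (.v 1) (.mul (.mul (.v 0) (.v 0)) (.v 0)) (.v 2))) c11C (by decide +kernel)

theorem RAM3.c10b (h : RAM3 A) (hX : ∀ x y : A, XX x x x y = 0) (x y : A) :
    LL x x (y * x) - LL x x y * x = 0 :=
  ev_of_check3E h.three (ρ := rh [x, y]) (.cons 0 3 raT (.cons 0 2 raqT (.cons 0 2 xT .nil)))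
    ⟨fun _ _ => h.raT_h _, fun _ _ => h.raqT_h _, fun _ _ => h.xT_h hX _, trivial⟩
    (.sub (LLE (.v 0) (.v 0) (.mul (.v 1) (.v 0))) (.mul (LLE (.v 0) (.v 0) (.v 1)) (.v 0)))
    c10bC (by decide +kernel)

theorem InK.add {a b : A} (ha : InK a) (hb : InK b) : InK (a + b) := by
  intro c; rw [add_mul, mul_add, ha, hb]

theorem InK.sub {a b : A} (ha : InK a) (hb : InK b) : InK (a - b) := by
  intro c; rw [sub_mul, mul_sub, ha, hb]

/-- linearisation of the cube -/
theorem RAM3.cubeK (h : RAM3 A) (hc : ∀ x : A, InK (x * x * x)) (x y : A) : InK (LL x x y) := by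
  have h1 := ((hc y).add (hc y)).sub ((hc (x + y)).add (hc (y - x)))
  have h3 := h.three (LL x x y)
  have e : y * y * y + y * y * y - ((x + y) * (x + y) * (x + y) + (y - x) * (y - x) * (y - x))
      + (3 : ℕ) • LL x x y = LL x x y := by
    rw [show (3 : ℕ) • LL x x y = LL x x y + LL x x y + LL x x y by
      rw [succ_nsmul, two_nsmul]]
    simp only [LL, add_mul, mul_add, sub_mul, mul_sub]
    abel
  rw [h3, add_zero] at e
  rwa [e] at h1

end ring

section alg

variable {F A : Type*} [Field F] [NonUnitalNonAssocRing A] [Module F A] [IsScalarTower F A A]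
  [SMulCommClass F A A]

theorem SR3.xx (h : SR3 F A) (x y : A) : XX x x x y = 0 := by
  have hK : ∀ x y : A, InK (XX x x x y) := fun x y w => sub_eq_zero.mp (h.ram.c9 x y w)
  refine h.trick (x := x) (hK x y) ?_ (fun hx => h.ram.czX hx y)
  rw [sub_eq_zero.mp (h.ram.c10 x y)]
  exact hK _ _

theorem SR3.cube (h : SR3 F A) (x : A) : InK (x * x * x) := h.omK (h.ram.c11 h.xx x)

theorem SR3.ll (h : SR3 F A) (x y : A) : LL x x y = 0 := by
  have hK : ∀ x y : A, InK (LL x x y) := fun x y => h.ram.cubeK h.cube x y
  refine h.trick (x := x) (hK x y) ?_ (fun hx => h.ram.czL hx y)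
  rw [← sub_eq_zero.mp (h.ram.c10b h.xx x y)]
  exact hK _ _

end alg

end Pool.Agent.C3
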