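import Pool.Agent.Helper10.C3.Base
import Pool.Agent.NACert.Ideals

/-!
# The ideal generated by the alternators in characteristic three
-/

namespace Pool.Agent.C3

open Pool.Agent.NACert Pool.Agent.NACert.Fast

section ring

variable {A : Type*} [NonUnitalNonAssocRing A]

/-- expression -/
def d1E : E :=
  let x : E := .v 0
  let y : E := .v 1
  let z : E := .v 2
  .sub (.cm (.as x x y) z) (.sub (.add (E.al z (.mul x x) y)
      (E.al x (.mul y x) z)) (.add (E.al y (.mul x x) z)
      (E.al z (.mul y x) x)))

/-- certificate -/
def d1C : List ℕ :=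
  [537010432, 537063680, 269545984, 536998400, 537010192, 2105603, 270598384, 268509200,
    538112000, 270536944, 270533104, 1053187, 270602240, 537063440, 33689617, 539103232,
    269545504, 536932640, 16916497, 537920240, 269557760, 33559281, 268509440, 538058752]

theorem RAM3.d1 (h : RAM3 A) (x y z : A) : cmm (ass x x y) z =
    (alt z (x * x) y +
      alt x (y * x) z) -
    (alt y (x * x) z +
      alt z (y * x) x) := by
  rw [← sub_eq_zero]
  exact ev_of_check3E h.three (ρ := rh [x, y, z]) (kbase .nil) (h.kb _ _ trivial) d1E d1C (by decide +kernel)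

/-- expression -/
def d2E : E :=
  let x : E := .v 0
  let y : E := .v 1
  let z : E := .v 2
  let w : E := .v 3
  .sub (.mul (.mul (.as x x y) z) w) (.sub (.add (.add (.add (.add (.add (.add (.add (.add (.add (.add (E.al x w (.mul z (.mul x y)))
      (.mul (E.al x x y) (.mul z w)))
      (.mul (E.al y (.mul z x) x) w))
      (.mul (E.al z (.mul x y) x) w))
      (.mul (E.al z (.mul y x) x) w))
      (.mul (E.al x (.mul x y) z) w))
      (.mul (E.al x x (.mul z y)) w))
      (.mul (E.al x (.mul y z) x) w))
      (E.al w (.mul (.mul x x) y) z))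
      (.mul (E.al x w (.mul y x)) z))
      (E.al x (.mul (.mul w x) y) z)) (.add (.add (.add (.add (.add (.add (.add (.add (.mul (E.al y (.mul x x) z) w)
      (E.al w (.mul x (.mul x y)) z))
      (.mul (E.al x x z) (.mul w y)))
      (E.al x w (.mul (.mul z y) x)))
      (.mul (E.al x (.mul y x) z) w))
      (.mul (E.al x y (.mul x z)) w))
      (E.al x (.mul w (.mul x y)) z))
      (.mul (E.al x x (.mul w y)) z))
      (.mul (E.al x w y) (.mul z x))))

/-- certificate -/
def d2C : List ℕ :=
  [69054164992, 69277315072, 137472701200, 68769018112, 137471606528, 137773511168,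
    137472635680, 68752241152, 137459921408, 137473815040, 69527924992, 69258441472,
    137458873088, 137472635440, 68756312096, 68753223984, 137488441088, 68755133424, 68754337824,
    68756308464, 69003834112, 68755198000, 68756243184, 69526876672, 137991634688, 69054103792,
    68768960752, 138277941488, 138278866928, 69559447792, 137773457648, 68752187632,
    138261229808, 69054046208, 69543784448, 138263195904, 69541753088, 137475723296, 69541687808,
    540086787, 271655171, 138263199984, 138263195664, 138261229584, 8641388577, 69541622288,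
    138263138544, 69543727104, 69543792640, 69541622048, 8641454097, 69542670368, 69542617328,
    69542682624, 4346417185, 4346352369, 69541634304, 69541634064, 69003833392, 68991053872,
    137458872368, 69560435184, 137471471408, 137723179568, 138279981056, 68988957232, 8627626001,
    138277876000, 69559447584, 4347535377, 137456775728, 138277941760, 137471594288, 8642368241,
    137457954864, 69258440752, 69558472736, 137488364288, 68752126192, 138260123680,
    137488314608, 68752114672, 137488314624, 69257458672, 137975952368, 137976889328,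
    69274431488, 69273252608, 137992736816, 69273251888, 69276405760, 137457897520, 137723126768,
    68735280112, 68721570352, 68737376304, 137471533104, 137471537664, 137707536368, 69004882688,
    137471667968, 8642433057, 4312802289, 4296163313, 137455804720, 68737561088, 68739539200,
    137456971824, 68738412848, 68736446768, 68737364528, 137459015696, 137505148960, 69559386864,
    137457894384, 68738356208, 137977131248]

theorem RAM3.d2 (h : RAM3 A) (x y z w : A) : (ass x x y * z) * w =
    (alt x w (z * (x * y)) +
      (alt x x y) * (z * w) +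
      (alt y (z * x) x) * w +
      (alt z (x * y) x) * w +
      (alt z (y * x) x) * w +
      (alt x (x * y) z) * w +
      (alt x x (z * y)) * w +
      (alt x (y * z) x) * w +
      alt w ((x * x) * y) z +
      (alt x w (y * x)) * z +
      alt x ((w * x) * y) z) -
    ((alt y (x * x) z) * w +
      alt w (x * (x * y)) z +
      (alt x x z) * (w * y) +
      alt x w ((z * y) * x) +
      (alt x (y * x) z) * w +
      (alt x y (x * z)) * w +
      alt x (w * (x * y)) z +
      (alt x x (w * y)) * z +
      (alt x w y) * (z * x)) := by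
  rw [← sub_eq_zero]
  exact ev_of_check3E h.three (ρ := rh [x, y, z, w]) (kbase .nil) (h.kb _ _ trivial) d2E d2C (by decide +kernel)

/-- left multiplication of a product -/
theorem RAM3.left (h : RAM3 A) (p z w : A) :
    w * (p * z) = (w * cmm z p) - ((p * w) * z - cmm p w * z + (p * (w * z) - cmm p (w * z))) := by
  have h1 := h.ra' w p z
  have h3 := h.three (w * (p * z))
  rw [← sub_eq_zero]
  have e : w * (p * z) - ((w * cmm z p) - ((p * w) * z - cmm p w * z + (p * (w * z) - cmm p (w * z))))
      = (ass w p z + ass w z p) + (3 : ℕ) • (w * (p * z)) := by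
    rw [show (3 : ℕ) • (w * (p * z)) = w * (p * z) + w * (p * z) + w * (p * z) by
      rw [succ_nsmul, two_nsmul]]
    simp only [ass, cmm, mul_sub, sub_mul]
    abel
  rw [e, h1, h3, add_zero]

theorem RAM3.annl_mul (h : RAM3 A) {z : A} (hz : ∀ a : A, a * z = 0) (x a : A) :
    a * (z * x) = 0 := by
  have h2 := h.ra' a z x
  simp only [ass] at h2
  rw [hz a, hz (a * x), hz x, zero_mul, mul_zero] at h2
  simpa using h2

end ring

section alg

variable {F A : Type*} [Field F] [NonUnitalNonAssocRing A] [Module F A] [IsScalarTower F A A]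
  [SMulCommClass F A A]

/-- the span of the products of alternators and elements -/
def altMul (F A : Type*) [Field F] [NonUnitalNonAssocRing A] [Module F A] : Submodule F A :=
  Submodule.span F {a : A | ∃ x y z : A, a = ass x x y * z}

/-- the sum of the spans -/
def alt2 (F A : Type*) [Field F] [NonUnitalNonAssocRing A] [Module F A] : Submodule F A :=
  altSpan F A ⊔ altMul F A

omit [IsScalarTower F A A] [SMulCommClass F A A] in
theorem mem_alt2_of_mem {a : A} (ha : a ∈ altSpan F A) : a ∈ alt2 F A :=
  Submodule.mem_sup_left ha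

omit [SMulCommClass F A A] in
theorem mul_mem_alt2 {s : A} (hs : s ∈ altSpan F A) (a : A) : s * a ∈ alt2 F A := by
  refine Submodule.span_induction (p := fun x _ => x * a ∈ alt2 F A) ?_ ?_ ?_ ?_ hs
  · rintro _ ⟨u, v, rfl⟩
    exact Submodule.mem_sup_right (Submodule.subset_span ⟨u, v, a, rfl⟩)
  · simp
  · intro u v _ _ hu hv; rw [add_mul]; exact Submodule.add_mem _ hu hv
  · intro c u _ hu; rw [smul_mul_assoc]; exact Submodule.smul_mem _ _ hu

omit [SMulCommClass F A A] in
theorem alt_mul_mem (x y z a : A) : alt x y z * a ∈ alt2 F A := mul_mem_alt2 (alt_mem _ _ _) a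

theorem RAM3.cmm_mem (h : RAM3 A) {s : A} (hs : s ∈ altSpan F A) (a : A) :
    cmm s a ∈ altSpan F A := by
  refine Submodule.span_induction (p := fun x _ => cmm x a ∈ altSpan F A) ?_ ?_ ?_ ?_ hs
  · rintro _ ⟨u, v, rfl⟩
    rw [h.d1]
    apply Submodule.sub_mem <;>
      repeat' (first | exact alt_mem _ _ _ | apply Submodule.add_mem)
  · simp [cmm]
  · intro u v _ _ hu hv; rw [cmm_add_left]; exact Submodule.add_mem _ hu hv
  · intro c u _ hu
    have : cmm (c • u) a = c • cmm u a := by
      simp only [cmm, smul_mul_assoc, mul_smul_comm, smul_sub]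
    rw [this]; exact Submodule.smul_mem _ _ hu

theorem RAM3.mul_mem_left (h : RAM3 A) {s : A} (hs : s ∈ altSpan F A) (a : A) :
    a * s ∈ alt2 F A := by
  have h1 := Submodule.sub_mem _ (mul_mem_alt2 hs a) (mem_alt2_of_mem (h.cmm_mem hs a))
  have e : s * a - cmm s a = a * s := by simp only [cmm]; abel
  rwa [e] at h1

theorem RAM3.d2_mem (h : RAM3 A) (x y z w : A) : (ass x x y * z) * w ∈ alt2 F A := by
  rw [h.d2]
  apply Submodule.sub_mem <;>
    repeat'
      first
      | exact alt_mul_mem _ _ _ _
      | exact mem_alt2_of_mem (alt_mem _ _ _)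
      | apply Submodule.add_mem

theorem RAM3.d3_mem (h : RAM3 A) (x y z w : A) : w * (ass x x y * z) ∈ alt2 F A := by
  rw [h.left]
  have hp : ass x x y ∈ altSpan F A := ass_mem _ _
  have h1 : cmm z (ass x x y) ∈ altSpan F A := by
    have : cmm z (ass x x y) = - cmm (ass x x y) z := by simp only [cmm]; abel
    rw [this]; exact Submodule.neg_mem _ (h.cmm_mem hp z)
  exact Submodule.sub_mem _ (h.mul_mem_left h1 w) (Submodule.add_mem _
    (Submodule.sub_mem _ (h.d2_mem x y w z) (mul_mem_alt2 (h.cmm_mem hp w) z))
    (Submodule.sub_mem _ (mul_mem_alt2 hp _) (mem_alt2_of_mem (h.cmm_mem hp _))))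

theorem RAM3.alt2_ideal (h : RAM3 A) : IsId F (alt2 F A) := by
  intro x hx a
  obtain ⟨s, hs, t, ht, rfl⟩ := Submodule.mem_sup.mp hx
  constructor
  · rw [mul_add]
    refine Submodule.add_mem _ (h.mul_mem_left hs a) ?_
    refine Submodule.span_induction (p := fun x _ => a * x ∈ alt2 F A) ?_ ?_ ?_ ?_ ht
    · rintro _ ⟨u, v, w, rfl⟩; exact h.d3_mem u v w a
    · simp
    · intro u v _ _ hu hv; rw [mul_add]; exact Submodule.add_mem _ hu hv
    · intro c u _ hu; rw [mul_smul_comm]; exact Submodule.smul_mem _ _ hu
  · rw [add_mul]
    refine Submodule.add_mem _ (mul_mem_alt2 hs a) ?_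
    refine Submodule.span_induction (p := fun x _ => x * a ∈ alt2 F A) ?_ ?_ ?_ ?_ ht
    · rintro _ ⟨u, v, w, rfl⟩; exact h.d2_mem u v w a
    · simp
    · intro u v _ _ hu hv; rw [add_mul]; exact Submodule.add_mem _ hu hv
    · intro c u _ hu; rw [smul_mul_assoc]; exact Submodule.smul_mem _ _ hu

/-- simple algebras of our class which are not left alternative -/
structure SR3 (F A : Type*) [Field F] [NonUnitalNonAssocRing A] [Module F A] : Prop where
  ram : RAM3 A
  simp : IsSimp F A
  na : ∃ x y : A, ass x x y ≠ 0

/-- every element is a combination of alternators and of their products -/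
theorem SR3.alt2_eq (h : SR3 F A) : alt2 F A = ⊤ := by
  rcases h.simp.2 _ h.ram.alt2_ideal with h1 | h1
  · exfalso
    obtain ⟨x, y, hxy⟩ := h.na
    have : ass x x y ∈ alt2 F A := mem_alt2_of_mem (ass_mem _ _)
    rw [h1, Submodule.mem_bot] at this
    exact hxy this
  · exact h1

/-- a linear property of alternators and of their products holds for all elements -/
theorem SR3.induction (h : SR3 F A) {p : A → Prop} (h1 : ∀ x y : A, p (ass x x y))
    (h1' : ∀ x y z : A, p (ass x x y * z))
    (h2 : ∀ a b, p a → p b → p (a + b)) (h3 : ∀ (c : F) a, p a → p (c • a)) (a : A) : p a := by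
  have ha : a ∈ alt2 F A := by rw [h.alt2_eq]; trivial
  obtain ⟨s, hs, t, ht, rfl⟩ := Submodule.mem_sup.mp ha
  have h0 : p 0 := by
    have := h1 0 0
    simpa [ass] using this
  refine h2 _ _ ?_ ?_
  · refine Submodule.span_induction (p := fun x _ => p x) ?_ h0 (fun u v _ _ => h2 u v)
      (fun c u _ => h3 c u) hs
    rintro _ ⟨u, v, rfl⟩; exact h1 u v
  · refine Submodule.span_induction (p := fun x _ => p x) ?_ h0 (fun u v _ _ => h2 u v)
      (fun c u _ => h3 c u) ht
    rintro _ ⟨u, v, w, rfl⟩; exact h1' u v w

/-- `A z = 0` implies `z = 0` -/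
theorem SR3.annl (h : SR3 F A) {z : A} (hz : ∀ a : A, a * z = 0) : z = 0 := by
  have hid : IsId F (idN F (A := A)) := by
    intro x hx a
    constructor
    · intro b
      show b * (a * x) = 0
      have h0 : ∀ a : A, a * x = 0 := hx
      rw [h0 a, mul_zero]
    · intro b
      exact h.ram.annl_mul hx a b
  rcases h.simp.2 _ hid with h1 | h1
  · have : z ∈ idN F (A := A) := hz
    rw [h1, Submodule.mem_bot] at this
    exact this
  · exfalso
    obtain ⟨x, y, hxy⟩ := h.simp.1
    have : y ∈ idN F (A := A) := by rw [h1]; trivial
    exact hxy (this x)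

/-- an element killed on the left by the alternators and their products vanishes -/
theorem SR3.kill (h : SR3 F A) {z : A} (h1 : ∀ x y : A, ass x x y * z = 0)
    (h2 : ∀ x y w : A, (ass x x y * w) * z = 0) : z = 0 := by
  apply h.annl
  apply h.induction (p := fun a => a * z = 0) h1 h2
  · intro a b ha hb; rw [add_mul, ha, hb, add_zero]
  · intro c a ha; rw [smul_mul_assoc, ha, smul_zero]

end alg

end Pool.Agent.C3
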