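import Pool.Agent.Helper10.C3.Ideal

/-!
# The elements `s` with `(s, a, b) + (a, s, b) = 0` in characteristic three

In a simple algebra of our class which is not alternative they are central.
-/

namespace Pool.Agent.C3

open Pool.Agent.NACert Pool.Agent.NACert.Fast

section ring

variable {A : Type*} [NonUnitalNonAssocRing A]

/-- elements with `(s, a, b) + (a, s, b) = 0` -/
def InOm (s : A) : Prop := ∀ a b : A, ass s a b + ass a s b = 0

/-- elements commuting with all elements -/
def InK (k : A) : Prop := ∀ a : A, k * a = a * k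

/-- central elements -/
structure Cn (k : A) : Prop where
  cm : ∀ a : A, k * a = a * k
  l : ∀ a b : A, ass k a b = 0
  m : ∀ a b : A, ass a k b = 0
  r : ∀ a b : A, ass a b k = 0

/-- certificate -/
def cderC : List ℕ :=
  [66065, 1056784]

/-- certificate -/
def c4C : List ℕ :=
  [138025365760, 137475781152, 138264179200, 137745134080, 8609808164, 4331798308, 69272215856,
    4315086628, 4329832228, 137475846672, 137475793392, 137475846432, 8627622644, 4347473908,
    68756250912, 69276267264, 69525975024, 8609804084, 4329766708, 4332662548, 137474683632,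
    137473749552, 69258703344, 8626712564, 4331806708, 137474679088, 4330746869, 8592175601,
    69041385984, 8610050804, 68756251376, 68754158112, 69007974432, 68737446432, 68755321136,
    137743298592, 138027201040, 137991700240, 138260131600, 4314047221, 138025169680,
    137475650320, 69023756336, 8641457940, 69023757056, 137744151072, 138041946640, 138029297920,
    4331614708, 8591057457, 69561479184, 4312732209, 138008538880, 271650595, 138013569280,
    138009522464, 138009518384, 68754338336, 69289111584, 69307724064, 138260181280, 8607900212,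
    138011734032, 69003849504, 138012656112, 68752191264, 69293109536, 138009637152, 68992102944,
    137471717920, 137991757600, 137991634720, 138012533232, 138260127520, 69292142608,
    138012598528, 138010620672, 137474601760, 69258441504, 69003834144, 68752175904, 8625787412,
    69291012656, 138009506352, 69542605344, 137471606560, 138011537712, 4330757941, 138011603712,
    4330762740, 137723376160, 69292077312, 4330754836, 69290029856, 69292065776, 138012598512,
    68757221664, 138010505248, 4330689316, 8625656372, 137505091360, 69290959856, 68785676064,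
    69293175296, 4314100469, 137756930560, 69308772864, 138041958640, 69272219936, 137773588720,
    138008535280, 8642494245, 268571427, 537014563, 69557420784, 69054104304, 69289050864,
    137756869360, 8627625764, 137488380192, 537981731, 4346490626, 138008473632, 69288997376,
    4330562340, 138008469552, 137488441840, 8643355125, 69322469664, 4330697460, 138042012160,
    8627622420, 138041958656, 138279981040, 8641450277, 137743049712, 8626581762, 69305774096,
    137773458160, 68771901984, 138260062960, 137505088240, 69305774336, 4347339508, 137727385632,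
    4312994305, 8610845220, 8641253905, 138025235200, 69037388544, 137505087776, 4296217105,
    69543850240, 69542801920, 4346422005, 69543850000, 69272204064, 138262147616, 69541687840,
    69543719200, 69288915744, 69022511904, 69543731440, 138263200496, 69543666160, 4346483444,
    8627622180, 8624738596, 137474732592, 4331610420, 138280956160, 69543792624, 4346417700,
    138246496240, 138260062496, 8642506516, 138008522800, 69037387824, 4347470581, 138008392240,
    138278924832, 4347535141, 137991692080, 68755124784, 68756173104, 137993646640, 137744085040,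
    4331607028, 69560627456, 4331609909, 138277888288, 68768898864, 137475793184, 137474732832,
    69037338864, 269684515, 137471602480, 69288985584, 4315033589, 8626574100, 4331737073,
    69305700400, 137723261680, 68752126704, 69272154864, 69322547456, 138042023952, 137471599600,
    69037204464, 8627626277, 68768834544, 138008408576, 137992860400, 137995809520, 137995759600,
    540078371, 137994957040, 4328660786, 137992749040, 69574201584, 137979109360, 137991631136,
    138276905200, 69291209216, 4329717748, 69276463360, 137994957056, 8624739060, 137993843456,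
    8624684820, 69276332560, 69276406000, 137994842128, 69273383200, 137995809056, 137992729376,
    137995821296, 69276336880, 137992745488, 69276275440, 137995821312, 138280038640,
    69558465264, 4329709365, 69274235440, 4332659220, 137994776816, 69274182640, 69274251776,
    137994899440, 68991251184, 68752060960, 137723195936, 8591130402, 69007844080, 8626585364,
    8607765041, 137709694960, 4313001764, 4312936244, 69004833312, 69007897120, 69006848800,
    137726406688, 4312933156, 4312940325, 137727451376, 269550371, 69006979840, 8642302500,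
    69006795760, 137726455856, 4312936689, 69006848560, 4312928820, 69006799600, 137726521856,
    4313846321, 4312929060, 4297003569, 69322474224, 4297134641, 138042077200, 268513571,
    68738609440, 68737561120, 137457955616, 137456972576, 68738494992, 68738494752, 536941347,
    68739539440, 137459012336, 138246434800, 138025174000, 137995743280, 68738478640,
    137457906192, 137457905952, 68738425136, 4296086065]

theorem RAM3.omT_h (h : RAM3 A) {s : A} (hs : InOm s) (ρ : ℕ → A) (h0 : ρ 0 = s) :
    omT.ev ρ = 0 := by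
  rw [tm_eq h.three omT (.add (.as (.v 0) (.v 1) (.v 2)) (.as (.v 1) (.v 0) (.v 2))) ρ
    (by decide +kernel)]
  show ass (ρ 0) (ρ 1) (ρ 2) + ass (ρ 1) (ρ 0) (ρ 2) = 0
  rw [h0]
  exact hs _ _

theorem RAM3.der (h : RAM3 A) {s : A} (hs : InOm s) (a b : A) :
    cmm (a * b) s = a * cmm b s + cmm a s * b := by
  rw [← sub_eq_zero]
  exact ev_of_check3E h.three (ρ := rh [s, a, b]) (.cons 0 3 raT (.cons 1 2 omT .nil))
    ⟨fun _ _ => h.raT_h _, fun ρ' h0 => h.omT_h hs ρ' (h0 0 (by norm_num)), trivial⟩
    (.sub (.cm (.mul (.v 1) (.v 2)) (.v 0))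
      (.add (.mul (.v 1) (.cm (.v 2) (.v 0))) (.mul (.cm (.v 1) (.v 0)) (.v 2))))
    cderC (by decide +kernel)

theorem RAM3.derT_h (h : RAM3 A) {s : A} (hs : InOm s) (ρ : ℕ → A) (h0 : ρ 0 = s) :
    derT.ev ρ = 0 := by
  rw [tm_eq h.three derT (.sub (.cm (.mul (.v 1) (.v 2)) (.v 0))
      (.add (.mul (.v 1) (.cm (.v 2) (.v 0))) (.mul (.cm (.v 1) (.v 0)) (.v 2)))) ρ
    (by decide +kernel)]
  show cmm (ρ 1 * ρ 2) (ρ 0) - (ρ 1 * cmm (ρ 2) (ρ 0) + cmm (ρ 1) (ρ 0) * ρ 2) = 0
  rw [h0, h.der hs, sub_self]

theorem RAM3.c4 (h : RAM3 A) {s : A} (hs : InOm s) (y a b : A) : ass a a b * cmm y s = 0 :=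
  ev_of_check3E h.three (ρ := rh [s, y, a, b]) (kbase (.cons 1 2 omT (.cons 1 2 derT .nil)))
    (h.kb _ _ ⟨fun ρ' h0 => h.omT_h hs ρ' (h0 0 (by norm_num)),
      fun ρ' h0 => h.derT_h hs ρ' (h0 0 (by norm_num)), trivial⟩)
    (.mul (.as (.v 2) (.v 2) (.v 3)) (.cm (.v 1) (.v 0))) c4C (by decide +kernel)

theorem RAM3.c4' (h : RAM3 A) {s : A} (hs : InOm s) (y a a' b : A) :
    alt a a' b * cmm y s = 0 := by
  rw [alt_eq, sub_mul, sub_mul, h.c4 hs, h.c4 hs, h.c4 hs]
  simp

/-- facts of the first kind -/
theorem RAM3.p1 (h : RAM3 A) {s : A} (hs : InOm s) (t : Tm) (k : ℕ) (w : A) {ρ : ℕ → A}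
    (hk : ρ k = cmm w s)
    (hc : check3 .nil (ofP (t.toP ++
      psm (-1) (E.mul (E.al (.v 8) (.v 9) (.v 10)) (.v k)).p)) [] = true) : t.ev ρ = 0 := by
  rw [tm_eq h.three t _ ρ hc]
  show alt (ρ 8) (ρ 9) (ρ 10) * ρ k = 0
  rw [hk, h.c4' hs]

/-- facts of the second kind -/
theorem RAM3.p2 (h : RAM3 A) {s : A} (hs : InOm s) (t : Tm) (i i' j j' : ℕ) (u w : A) {ρ : ℕ → A}
    (h1 : ρ i = u) (h1' : ρ i' = cmm u s) (h2 : ρ j = w) (h2' : ρ j' = cmm w s)
    (hc : check3 .nil (ofP (t.toP ++
      psm (-1) (E.mul (E.al (.v 8) (.v 9) (.v 10))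
        (.add (.mul (.v i) (.v j')) (.mul (.v i') (.v j)))).p)) [] = true) : t.ev ρ = 0 := by
  rw [tm_eq h.three t _ ρ hc]
  show alt (ρ 8) (ρ 9) (ρ 10) * (ρ i * ρ j' + ρ i' * ρ j) = 0
  rw [h1, h1', h2, h2', ← h.der hs, h.c4' hs]

/-- certificate -/
def c5C : List ℕ :=
  [70080660224, 2109447, 2109448, 69343383536, 270610436, 1056777, 1056778, 69610828016,
    540090372, 268628740, 138801185280, 271643140, 537014516, 271712500, 138798055168,
    70078639872, 537075956, 70078562864, 138798039840, 70078574832, 270594820, 138800067328,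
    138798105328, 539164916, 537002996, 70078497328, 138797974304, 70078689792, 70080593968,
    138062917872, 138801119264, 138330247152, 139067523840, 137811259632, 69091725296, 269561861,
    1052683, 70350078208, 138345975792, 540086277, 139069620240, 271585525, 536933141,
    70348112112, 139067523120, 139066601488, 540082421, 70346871792, 139066474800, 536883701,
    538177541, 70347002624, 271581685, 139067454208, 139066421488, 269496565, 268632565,
    537920501, 70347067632, 139066409264, 268502005, 70346937088, 70347981568, 4379910194,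
    70350077968, 69626556656, 1052684, 69107511536, 137826930672, 537993222, 69374898416,
    138094317552, 539037702, 70617530624, 268570870, 269615350, 139335959040, 139334971648,
    539029766, 70615379712, 70615433744, 268509430, 139334910240, 139334917888, 536998406,
    268501750, 139334852848, 70615433712, 70616412672, 139334844704, 537981446, 70615368208,
    539033846, 139335893024, 8708427810, 70617464848, 4396683314]

theorem RAM3.c5 (h : RAM3 A) {s : A} (hs : InOm s) (y a b c : A) :
    (ass a a b * c) * cmm y s = 0 :=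
  ev_of_check3E h.three (ρ := rh [a, b, c, y, cmm a s, cmm b s, cmm c s, cmm y s]) (kbase (.cons 8 3 pbT (.cons 8 3 pcT (.cons 8 3 pyT (.cons 8 3 pbcT (.cons 8 3 pcbT (.cons 8 3 pbyT (.cons 8 3 pybT (.cons 8 3 pcyT (.cons 8 3 pycT .nil))))))))))
    (h.kb _ _
      ⟨fun ρ' h0 => h.p1 hs pbT 5 b (h0 5 (by norm_num)) (by decide +kernel),
      fun ρ' h0 => h.p1 hs pcT 6 c (h0 6 (by norm_num)) (by decide +kernel),
      fun ρ' h0 => h.p1 hs pyT 7 y (h0 7 (by norm_num)) (by decide +kernel),
      fun ρ' h0 => h.p2 hs pbcT 1 5 2 6 b c (h0 1 (by norm_num)) (h0 5 (by norm_num))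
        (h0 2 (by norm_num)) (h0 6 (by norm_num)) (by decide +kernel),
      fun ρ' h0 => h.p2 hs pcbT 2 6 1 5 c b (h0 2 (by norm_num)) (h0 6 (by norm_num))
        (h0 1 (by norm_num)) (h0 5 (by norm_num)) (by decide +kernel),
      fun ρ' h0 => h.p2 hs pbyT 1 5 3 7 b y (h0 1 (by norm_num)) (h0 5 (by norm_num))
        (h0 3 (by norm_num)) (h0 7 (by norm_num)) (by decide +kernel),
      fun ρ' h0 => h.p2 hs pybT 3 7 1 5 y b (h0 3 (by norm_num)) (h0 7 (by norm_num))
        (h0 1 (by norm_num)) (h0 5 (by norm_num)) (by decide +kernel),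
      fun ρ' h0 => h.p2 hs pcyT 2 6 3 7 c y (h0 2 (by norm_num)) (h0 6 (by norm_num))
        (h0 3 (by norm_num)) (h0 7 (by norm_num)) (by decide +kernel),
      fun ρ' h0 => h.p2 hs pycT 3 7 2 6 y c (h0 3 (by norm_num)) (h0 7 (by norm_num))
        (h0 2 (by norm_num)) (h0 6 (by norm_num)) (by decide +kernel),
      trivial⟩)
    (.mul (.mul (.as (.v 0) (.v 0) (.v 1)) (.v 2)) (.v 7)) c5C (by decide +kernel)

/-! ### elements of `K` -/

/-- certificate -/
def comC : List ℕ :=
  [2105841, 1053217, 2105360, 1057041]

/-- certificate -/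
def ck2C : List ℕ :=
  [1057024, 65826, 1052961]

/-- certificate -/
def c7C : List ℕ :=
  [137476960784, 4314844981, 69859414256, 69859471616, 138578829552, 137778688512, 69859352832,
    138578883072, 138008608512, 69558485520, 138282078964, 138279973184, 69560497168,
    137991876912, 69562667248, 69003915056, 138530517552, 138282082836, 69272346416, 69272162096,
    69559710208, 69037458416, 137993647152, 69562601504, 69037473536, 137723311152, 69560562688,
    68991054896, 69272204336, 69559448128, 69560516848, 69560505588, 4347532533, 138279981380,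
    8642498885, 138282144036, 69562659328, 69559448608, 138547294512, 138278945280, 137723441712,
    138282201344, 69003792176, 138277962016, 69560516864, 138280235264, 138277953856, 4363321141,
    4363202357, 69827884016, 137723388912, 4363263797, 8658285557, 138530660660, 69813215764,
    138529616160, 4363330069, 138531696948, 69812163124, 69813281044, 4363203317, 138532753648,
    8658166325, 69813203472, 138530664740, 4363333397, 4363271957, 69813334272, 69812351232,
    138530598944, 138531705140, 69813215472, 69813203232, 69811106592, 8658232085, 138531713300,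
    4363206437, 69813207792, 69813211684, 8658166565, 4363326197, 4363330037, 69813273072,
    138531647504, 138532687904, 4363329317, 138532692224, 69811237632, 4363199477, 138531640308,
    138578891300, 138530583088, 69813276964, 138532757760, 69037469936, 4347663093, 69812155152,
    4363268597, 8658228213, 138529612080, 138532691984, 69812171008, 137473750064, 138530714612,
    69811119092, 69811118644, 138530599424, 69812155376, 4363194933, 69810139664, 8658231605,
    138531639604, 138528501552, 69277581300, 68768842736, 8609797173, 138531636208, 137997054192,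
    69327646976, 69272158512, 69277577748, 137997054208, 137993712688, 137993733108, 69257674736,
    137723266032, 69003723312, 137993667568, 69009142272, 137991820272, 137726325808,
    69009142308, 68757483808, 68755211248]

/-- certificate -/
def ct4C : List ℕ :=
  [539095296, 537010448, 16785697, 269676800, 270602480, 33689857, 538046976, 269558016,
    33628401]

/-- certificate -/
def ct5C : List ℕ :=
  [138263203824, 69543784688, 271720215, 16982553, 33632792, 33755673, 537997847]

/-- certificate -/
def ct2C : List ℕ :=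
  [138565251312, 69845716976, 16990738, 271663633]

/-- certificate -/
def c8C : List ℕ :=
  [138276913718, 4314116663, 35334963547920, 69545824822, 35400178463760, 35468662010640,
    17742777545744, 17876711895824, 17746552377104, 269632058, 17742777500144, 137744171574,
    17737962373936, 2208134275905, 1108386718529, 35399723447312, 17876475965744, 35338738352432,
    35400246693872, 8642576921, 8611902007, 17808041849360, 1113001632549, 69562602278,
    35400214180368, 35334963459120, 17808028209392, 35400214192628, 17746552288304,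
    17807219618864, 2212513321749, 138282152438, 35400212099584, 1113001766677, 2212513391093,
    35400228942116, 2212514308901, 17808044913168, 35400231031024, 2212514443029, 1113001705237,
    1113002811893, 17808044925428, 35400231027184, 1113002742549, 35400230969620, 2212514381589,
    35464384950784, 17807201924144, 17808027226096, 17807522657296, 17808028205552,
    35468361069360, 35468897939760, 69562659382, 35338738479600, 17742777561584, 138279010870,
    4366213915, 541192762, 17807756489744, 17742777434416, 69059211830, 1113723052600,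
    69859349046, 1117749584440, 17880803504624, 4349751831, 69070828086, 17871947166704,
    35464147956720, 35338738463760, 35464147956496, 17871947166480, 2216524058609, 1117012488433,
    69813277478, 35464133210416, 35399641592880, 4363334169, 138532745782, 541135418,
    35472956125680, 2216523014712, 69813400086, 17808060707056, 8643736089, 17871961911600,
    1117280866289, 2216792551665, 17807455548224, 35399405663040, 8644411927, 4364382745,
    138545279542, 17875438079984, 35338738418160, 1112951223537, 2212477596913, 17808026120484,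
    17742777369584, 35476196176384, 17808028147988, 8661176889, 35403162842160, 69859406390,
    17746552242960, 35334963413776, 35467624182000, 4363383351, 35400213328112, 35338738287600,
    138264506902, 69546013206, 4346561049, 17875939095344, 8641581623, 2212244824632,
    17670098449216, 8641528343, 69545882166, 69590925846, 35326373544752, 4365480471, 8643736087,
    69007983158, 35257974780976, 17665803482160, 35262269748032, 35400211116560]

/-- certificate -/
def c6C : List ℕ :=
  [540144149, 538112789, 68756304400, 68754219312, 270790933, 137475780896, 69040337652,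
    68755271952, 69557366772, 269742613, 137773527028, 138264179188, 68754207520, 69543788532,
    137740103668, 270668565, 137994695668, 69007832052, 69288935412, 8625590577, 137473634592,
    68754272560, 137742254068, 4297143025, 68754153776, 138278932512, 69574136048, 137723261456,
    69003784480, 69054165248, 69560430848, 138264178944, 69322477808, 8643350785, 8627622145,
    137740103424, 138012598260, 69291094516, 69291086836, 68771901728, 137723199264,
    138010685696, 138012594676, 138012594708, 69293117456, 138012594452, 4330819841,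
    138293678356, 69293183476, 69003768608, 8625791233, 138010555136, 137505087264, 138010554416,
    69293113840, 69291028756, 138010505472, 138010505748, 138010489136, 69291020596, 69291208720,
    69289980176, 69293052400, 69040336928, 137728356644, 8624480561, 69557416448, 69054046448,
    137756815860, 137756808180, 138276770544, 137773454064, 69557359348, 137773519604,
    138263203824, 69557363220, 138262147824, 138276835360, 69007901424, 137773523200,
    69054099968, 138008534784, 138263261424, 137756876544, 138260061984, 138245436144,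
    138261176592, 138262163444, 69543727344, 69543784704, 8641450241, 138262213120, 138263269876,
    4346487041, 69542735904, 69542736164, 69542801940, 138262156020, 69542670624, 138262090480,
    69542801664, 69020611328, 137743037184, 8641323297, 69559579124, 8642367777, 138278933236,
    69559460096, 69288915248, 69559578640, 138280038676, 69559578900, 4347531521, 138280047092,
    138278924576, 138277941536, 138278990116, 69559513600, 138278867696, 137756733744,
    138280046868, 69560569872, 138278932772, 138280038416, 271720726, 137994694704, 8642371873,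
    69007831348, 69006913844, 69037273328, 137994694964, 69020561648, 69288931568, 138260128016,
    69007831088, 68755124528, 137458872624, 138279981296, 69288858608, 69288924148, 137756742644,
    137740153344, 138008408320, 69288935168, 137993720116, 137756750080, 270603029, 137993778164,
    138276901104, 69276397824, 137739907824, 137995882996, 137992728880, 69276405776,
    137995882772, 138278989856, 137993777200, 137993711920, 69274244084, 69274251520,
    137993777460, 69557355248, 137993732084, 69574201876, 4348387585, 137740041984, 137739973120,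
    137773642260, 68989219568, 137756677104, 138293678096, 137725473524, 69007912948,
    69006914548, 537989926, 69007970544, 138010505716, 68740444448, 137726399028, 137726406672,
    137726407188, 137726398512, 69020492340, 69293174800, 137993655280, 69020496164,
    137725473060, 69007839984, 137727381536, 138276892964, 69006914304, 138278937076,
    69006913584, 137725407540, 137724424480, 137995816944, 137993719856, 137725407280,
    69008028180, 137724293920, 8606920689, 69005931060, 4312003313, 8609869809, 69005751024,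
    69025657088, 69291020336, 137725362164, 271773973, 271658774, 539095829, 68754223632,
    8591184161, 137728356384, 68756251120, 68739473680, 68755255600, 137473684016, 538001190,
    68754338320, 69559578880]

theorem RAM3.czT_h (h : RAM3 A) {k : A} (hk : InK k) (ρ : ℕ → A) (h0 : ρ 0 = k) :
    czT.ev ρ = 0 := by
  rw [tm_eq h.three czT (.cm (.v 0) (.v 1)) ρ (by decide +kernel)]
  show ρ 0 * ρ 1 - ρ 1 * ρ 0 = 0
  rw [h0, hk, sub_self]

theorem RAM3.inOm (h : RAM3 A) {k : A} (hk : InK k) : InOm k := fun a b =>
  ev_of_check3E h.three (ρ := rh [k, a, b]) (.cons 0 3 raT (.cons 1 1 czT .nil))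
    ⟨fun _ _ => h.raT_h _, fun ρ' h0 => h.czT_h hk ρ' (h0 0 (by norm_num)), trivial⟩
    (.add (.as (.v 0) (.v 1) (.v 2)) (.as (.v 1) (.v 0) (.v 2))) comC (by decide +kernel)

theorem RAM3.c7 (h : RAM3 A) {k : A} (hk : InK k) (x y : A) : InOm (ass k x y) := fun a b =>
  ev_of_check3E h.three (ρ := rh [k, x, y, a, b]) (kbase (.cons 1 1 czT (.cons 1 2 omT .nil)))
    (h.kb _ _ ⟨fun ρ' h0 => h.czT_h hk ρ' (h0 0 (by norm_num)),
      fun ρ' h0 => h.omT_h (h.inOm hk) ρ' (h0 0 (by norm_num)), trivial⟩)
    (.add (.as (.as (.v 0) (.v 1) (.v 2)) (.v 3) (.v 4))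
      (.as (.v 3) (.as (.v 0) (.v 1) (.v 2)) (.v 4))) c7C (by decide +kernel)

/-- `[k a, b] = k [a, b]` -/
theorem RAM3.k2 (h : RAM3 A) {k : A} (hk : InK k) (a b : A) :
    cmm (k * a) b - k * cmm a b = 0 :=
  ev_of_check3E h.three (ρ := rh [k, a, b]) (.cons 0 3 raT (.cons 1 1 czT (.cons 1 2 omT .nil)))
    ⟨fun _ _ => h.raT_h _, fun ρ' h0 => h.czT_h hk ρ' (h0 0 (by norm_num)),
      fun ρ' h0 => h.omT_h (h.inOm hk) ρ' (h0 0 (by norm_num)), trivial⟩
    (.sub (.cm (.mul (.v 0) (.v 1)) (.v 2)) (.mul (.v 0) (.cm (.v 1) (.v 2)))) ck2C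
    (by decide +kernel)

theorem RAM3.k2T_h (h : RAM3 A) {k : A} (hk : InK k) (ρ : ℕ → A) (h0 : ρ 0 = k) :
    k2T.ev ρ = 0 := by
  rw [tm_eq h.three k2T (.sub (.cm (.mul (.v 0) (.v 1)) (.v 2)) (.mul (.v 0) (.cm (.v 1) (.v 2))))
    ρ (by decide +kernel)]
  show cmm (ρ 0 * ρ 1) (ρ 2) - ρ 0 * cmm (ρ 1) (ρ 2) = 0
  rw [h0]
  exact h.k2 hk _ _

/-- `(k, x, x y) = (k, x, y) x` -/
theorem RAM3.t4 (h : RAM3 A) {k : A} (hk : InK k) (x y : A) :
    ass k x (x * y) - ass k x y * x = 0 :=
  ev_of_check3E h.three (ρ := rh [k, x, y]) (kbase (.cons 1 1 czT (.cons 1 2 omT (.cons 1 2 k2T .nil))))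
    (h.kb _ _ ⟨fun ρ' h0 => h.czT_h hk ρ' (h0 0 (by norm_num)),
      fun ρ' h0 => h.omT_h (h.inOm hk) ρ' (h0 0 (by norm_num)),
      fun ρ' h0 => h.k2T_h hk ρ' (h0 0 (by norm_num)), trivial⟩)
    (.sub (.as (.v 0) (.v 1) (.mul (.v 1) (.v 2))) (.mul (.as (.v 0) (.v 1) (.v 2)) (.v 1)))
    ct4C (by decide +kernel)

theorem RAM3.t4T_h (h : RAM3 A) {k : A} (hk : InK k) (ρ : ℕ → A) (h0 : ρ 0 = k) :
    t4T.ev ρ = 0 := by
  rw [tm_eq h.three t4T (.sub (.as (.v 0) (.v 1) (.mul (.v 1) (.v 2)))
    (.mul (.as (.v 0) (.v 1) (.v 2)) (.v 1))) ρ (by decide +kernel)]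
  show ass (ρ 0) (ρ 1) (ρ 1 * ρ 2) - ass (ρ 0) (ρ 1) (ρ 2) * ρ 1 = 0
  rw [h0]
  exact h.t4 hk _ _

theorem RAM3.t4LT_h (h : RAM3 A) {k : A} (hk : InK k) (ρ : ℕ → A) (h0 : ρ 0 = k) :
    t4LT.ev ρ = 0 := by
  rw [tm_eq h.three t4LT (.add
    (.sub (.as (.v 0) (.v 1) (.mul (.v 2) (.v 3))) (.mul (.as (.v 0) (.v 1) (.v 3)) (.v 2)))
    (.sub (.as (.v 0) (.v 2) (.mul (.v 1) (.v 3))) (.mul (.as (.v 0) (.v 2) (.v 3)) (.v 1)))) ρ
    (by decide +kernel)]
  show (ass (ρ 0) (ρ 1) (ρ 2 * ρ 3) - ass (ρ 0) (ρ 1) (ρ 3) * ρ 2) +
    (ass (ρ 0) (ρ 2) (ρ 1 * ρ 3) - ass (ρ 0) (ρ 2) (ρ 3) * ρ 1) = 0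
  rw [h0]
  refine pol2 (M := fun a b => ass k a (b * ρ 3) - ass k a (ρ 3) * b) ?_ ?_ (fun a => h.t4 hk _ _)
    _ _
  · intro a b c; simp only [ass, add_mul, mul_add, sub_mul]; abel
  · intro a b c; simp only [ass, add_mul, mul_add, sub_mul]; abel

theorem RAM3.thcT_h (h : RAM3 A) {k : A} (hth : ∀ x y : A, InK (ass k x y)) (ρ : ℕ → A)
    (h0 : ρ 0 = k) : thcT.ev ρ = 0 := by
  rw [tm_eq h.three thcT (.cm (.as (.v 0) (.v 1) (.v 2)) (.v 3)) ρ (by decide +kernel)]
  show ass (ρ 0) (ρ 1) (ρ 2) * ρ 3 - ρ 3 * ass (ρ 0) (ρ 1) (ρ 2) = 0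
  rw [h0, hth, sub_self]

theorem RAM3.thoT_h (h : RAM3 A) {k : A} (hth : ∀ x y : A, InK (ass k x y)) (ρ : ℕ → A)
    (h0 : ρ 0 = k) : thoT.ev ρ = 0 := by
  rw [tm_eq h.three thoT (.add (.as (.as (.v 0) (.v 1) (.v 2)) (.v 3) (.v 4))
    (.as (.v 3) (.as (.v 0) (.v 1) (.v 2)) (.v 4))) ρ (by decide +kernel)]
  show ass (ass (ρ 0) (ρ 1) (ρ 2)) (ρ 3) (ρ 4) + ass (ρ 3) (ass (ρ 0) (ρ 1) (ρ 2)) (ρ 4) = 0
  rw [h0]
  exact h.inOm (hth _ _) _ _

theorem RAM3.t2T_h (h : RAM3 A) {k : A} (hth : ∀ x y : A, InK (ass k x y)) (ρ : ℕ → A)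
    (h0 : ρ 0 = k) : t2T.ev ρ = 0 := by
  rw [tm_eq h.three t2T (.sub (.cm (.mul (.as (.v 0) (.v 1) (.v 2)) (.v 3)) (.v 4))
    (.mul (.as (.v 0) (.v 1) (.v 2)) (.cm (.v 3) (.v 4)))) ρ (by decide +kernel)]
  show cmm (ass (ρ 0) (ρ 1) (ρ 2) * ρ 3) (ρ 4) - ass (ρ 0) (ρ 1) (ρ 2) * cmm (ρ 3) (ρ 4) = 0
  rw [h0]
  exact h.k2 (hth _ _) _ _

/-- `(k, x, y) [x, w] = 0` -/
theorem RAM3.t5 (h : RAM3 A) {k : A} (hk : InK k) (hth : ∀ x y : A, InK (ass k x y))
    (x y w : A) : ass k x y * cmm x w = 0 :=
  ev_of_check3E h.three (ρ := rh [k, x, y, w]) (kbase (.cons 1 1 czT (.cons 1 2 omT (.cons 1 2 k2T (.cons 1 3 thcT (.cons 1 4 thoT (.cons 1 2 t4T (.cons 1 3 t4LT .nil))))))))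
    (h.kb _ _ ⟨fun ρ' h0 => h.czT_h hk ρ' (h0 0 (by norm_num)),
      fun ρ' h0 => h.omT_h (h.inOm hk) ρ' (h0 0 (by norm_num)),
      fun ρ' h0 => h.k2T_h hk ρ' (h0 0 (by norm_num)),
      fun ρ' h0 => h.thcT_h hth ρ' (h0 0 (by norm_num)),
      fun ρ' h0 => h.thoT_h hth ρ' (h0 0 (by norm_num)),
      fun ρ' h0 => h.t4T_h hk ρ' (h0 0 (by norm_num)),
      fun ρ' h0 => h.t4LT_h hk ρ' (h0 0 (by norm_num)), trivial⟩)
    (.mul (.as (.v 0) (.v 1) (.v 2)) (.cm (.v 1) (.v 3))) ct5C (by decide +kernel)

theorem RAM3.t5T_h (h : RAM3 A) {k : A} (hk : InK k) (hth : ∀ x y : A, InK (ass k x y))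
    (ρ : ℕ → A) (h0 : ρ 0 = k) : t5T.ev ρ = 0 := by
  rw [tm_eq h.three t5T (.mul (.as (.v 0) (.v 1) (.v 2)) (.cm (.v 1) (.v 3))) ρ
    (by decide +kernel)]
  show ass (ρ 0) (ρ 1) (ρ 2) * cmm (ρ 1) (ρ 3) = 0
  rw [h0]
  exact h.t5 hk hth _ _ _

theorem RAM3.t5LT_h (h : RAM3 A) {k : A} (hk : InK k) (hth : ∀ x y : A, InK (ass k x y))
    (ρ : ℕ → A) (h0 : ρ 0 = k) : t5LT.ev ρ = 0 := by
  rw [tm_eq h.three t5LT (.add (.mul (.as (.v 0) (.v 1) (.v 3)) (.cm (.v 2) (.v 4)))
    (.mul (.as (.v 0) (.v 2) (.v 3)) (.cm (.v 1) (.v 4)))) ρ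
    (by decide +kernel)]
  show ass (ρ 0) (ρ 1) (ρ 3) * cmm (ρ 2) (ρ 4) + ass (ρ 0) (ρ 2) (ρ 3) * cmm (ρ 1) (ρ 4) = 0
  rw [h0]
  refine pol2 (M := fun a b => ass k a (ρ 3) * cmm b (ρ 4)) ?_ ?_ (fun a => h.t5 hk hth _ _ _)
    _ _
  · intro a b c; simp only [ass, cmm, add_mul, mul_add, sub_mul, mul_sub]; abel
  · intro a b c; simp only [ass, cmm, add_mul, mul_add, sub_mul, mul_sub]; abel

theorem RAM3.c8 (h : RAM3 A) {k : A} (hk : InK k) (hth : ∀ x y : A, InK (ass k x y))
    (x y z w : A) : ass k x y * ass z z w = 0 :=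
  ev_of_check3E h.three (ρ := rh [k, x, y, z, w]) (kbase (.cons 1 1 czT (.cons 1 2 omT (.cons 1 3 thcT (.cons 1 4 thoT (.cons 1 2 k2T (.cons 1 4 t2T (.cons 1 3 t5T (.cons 1 4 t5LT (.cons 1 2 t4T (.cons 1 3 t4LT .nil)))))))))))
    (h.kb _ _ ⟨fun ρ' h0 => h.czT_h hk ρ' (h0 0 (by norm_num)),
      fun ρ' h0 => h.omT_h (h.inOm hk) ρ' (h0 0 (by norm_num)),
      fun ρ' h0 => h.thcT_h hth ρ' (h0 0 (by norm_num)),
      fun ρ' h0 => h.thoT_h hth ρ' (h0 0 (by norm_num)),
      fun ρ' h0 => h.k2T_h hk ρ' (h0 0 (by norm_num)),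
      fun ρ' h0 => h.t2T_h hth ρ' (h0 0 (by norm_num)),
      fun ρ' h0 => h.t5T_h hk hth ρ' (h0 0 (by norm_num)),
      fun ρ' h0 => h.t5LT_h hk hth ρ' (h0 0 (by norm_num)),
      fun ρ' h0 => h.t4T_h hk ρ' (h0 0 (by norm_num)),
      fun ρ' h0 => h.t4LT_h hk ρ' (h0 0 (by norm_num)), trivial⟩)
    (.mul (.as (.v 0) (.v 1) (.v 2)) (.as (.v 3) (.v 3) (.v 4))) c8C (by decide +kernel)

theorem RAM3.kaT_h (h : RAM3 A) {k : A} (hka : ∀ x y : A, k * ass x x y = 0) (ρ : ℕ → A)
    (h0 : ρ 0 = k) : kaT.ev ρ = 0 := by
  rw [tm_eq h.three kaT (.mul (.v 0) (E.al (.v 1) (.v 2) (.v 3))) ρ (by decide +kernel)]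
  show ρ 0 * alt (ρ 1) (ρ 2) (ρ 3) = 0
  rw [h0, alt_eq, mul_sub, mul_sub, hka, hka, hka]
  simp

theorem RAM3.kbT_h (h : RAM3 A) {k : A} (hkb : ∀ x y : A, ass x x y * k = 0) (ρ : ℕ → A)
    (h0 : ρ 0 = k) : kbT.ev ρ = 0 := by
  rw [tm_eq h.three kbT (.mul (E.al (.v 1) (.v 2) (.v 3)) (.v 0)) ρ (by decide +kernel)]
  show alt (ρ 1) (ρ 2) (ρ 3) * ρ 0 = 0
  rw [h0, alt_eq, sub_mul, sub_mul, hkb, hkb, hkb]
  simp

theorem RAM3.c6 (h : RAM3 A) {k : A} (hk : InK k) (hkb : ∀ x y : A, ass x x y * k = 0)
    (x y z : A) : (ass x x y * z) * k = 0 :=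
  ev_of_check3E h.three (ρ := rh [k, x, y, z]) (kbase (.cons 1 1 czT (.cons 1 3 kaT (.cons 1 3 kbT .nil))))
    (h.kb _ _ ⟨fun ρ' h0 => h.czT_h hk ρ' (h0 0 (by norm_num)),
      fun ρ' h0 => h.kaT_h (k := k) (fun x y => by rw [hk, hkb]) ρ' (h0 0 (by norm_num)),
      fun ρ' h0 => h.kbT_h hkb ρ' (h0 0 (by norm_num)), trivial⟩)
    (.mul (.mul (.as (.v 1) (.v 1) (.v 2)) (.v 3)) (.v 0)) c6C (by decide +kernel)

end ring

section alg

variable {F A : Type*} [Field F] [NonUnitalNonAssocRing A] [Module F A] [IsScalarTower F A A]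
  [SMulCommClass F A A]

/-- elements of `Ω` commute with all elements -/
theorem SR3.omK (h : SR3 F A) {s : A} (hs : InOm s) : InK s := by
  intro y
  have h1 : cmm y s = 0 := h.kill (fun a b => h.ram.c4 hs y a b) (fun a b c => h.ram.c5 hs y a b c)
  exact (sub_eq_zero.mp h1).symm

/-- elements of `K` killed by alternators vanish -/
theorem SR3.kK (h : SR3 F A) {k : A} (hk : InK k) (hkb : ∀ x y : A, ass x x y * k = 0) : k = 0 :=
  h.kill hkb (fun x y z => h.ram.c6 hk hkb x y z)

/-- elements of `K` are central -/
theorem SR3.cn (h : SR3 F A) {k : A} (hk : InK k) : Cn k := by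
  have hth : ∀ x y : A, InK (ass k x y) := fun x y => h.omK (h.ram.c7 hk x y)
  have h0 : ∀ x y : A, ass k x y = 0 := by
    intro x y
    apply h.kK (hth x y)
    intro z w
    rw [← hth x y, h.ram.c8 hk hth]
  have h1 : ∀ x y : A, ass x k y = 0 := by
    intro x y
    have := h.ram.inOm hk x y
    rwa [h0, zero_add] at this
  refine ⟨hk, h0, h1, fun x y => ?_⟩
  have := h.ram.ra' x y k
  rwa [h1, add_zero] at this

/-- a nonzero central element is not a zero divisor -/
theorem SR3.ndiv (h : SR3 F A) {k u : A} (hk : Cn k) (h0 : k * u = 0) : k = 0 ∨ u = 0 := by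
  have hid : IsId F ({ carrier := {u | k * u = 0}
                       zero_mem' := by simp
                       add_mem' := by
                         intro a b ha hb
                         show k * (a + b) = 0
                         have ha' : k * a = 0 := ha
                         have hb' : k * b = 0 := hb
                         rw [mul_add, ha', hb', add_zero]
                       smul_mem' := by
                         intro c a ha
                         show k * (c • a) = 0
                         have ha' : k * a = 0 := ha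
                         rw [mul_smul_comm, ha', smul_zero] } : Submodule F A) := by
    intro x hx a
    have hx' : k * x = 0 := hx
    constructor
    · show k * (a * x) = 0
      have e1 := hk.l a x
      have e2 := hk.m a x
      simp only [ass] at e1 e2
      rw [sub_eq_zero] at e1 e2
      rw [← e1, hk.cm a, e2, hx', mul_zero]
    · show k * (x * a) = 0
      have e1 := hk.l x a
      simp only [ass] at e1
      rw [sub_eq_zero] at e1
      rw [← e1, hx', zero_mul]
  rcases h.simp.2 _ hid with h1 | h1
  · right
    have : u ∈ (⊥ : Submodule F A) := by rw [← h1]; exact h0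
    simpa using this
  · left
    apply h.annl
    intro a
    have : a ∈ (⊤ : Submodule F A) := trivial
    rw [← h1] at this
    have h2 : k * a = 0 := this
    rw [← hk.cm, h2]

/-- the argument with `f` and `f x` central -/
theorem SR3.trick (h : SR3 F A) {f x : A} (hf : InK f) (hfx : InK (f * x))
    (h0 : Cn x → f = 0) : f = 0 := by
  have hc := h.cn hf
  by_contra hne
  apply hne
  apply h0
  apply h.cn
  intro w
  have h1 := hfx w
  have e1 := hc.l x w
  have e2 := hc.l w x
  have e3 := hc.m w x
  simp only [ass] at e1 e2 e3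
  rw [sub_eq_zero] at e1 e2 e3
  have h2 : f * (x * w - w * x) = 0 := by
    rw [mul_sub, ← e1, h1, ← e2, hc.cm w, e3, sub_self]
  rcases h.ndiv hc h2 with h3 | h3
  · exact absurd h3 hne
  · exact sub_eq_zero.mp h3

end alg

end Pool.Agent.C3
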