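import Pool.Agent.Helper10.C3.Tool
import Pool.Agent.NACert.RAM

/-!
# Templates of identities (generated)
-/

namespace Pool.Agent.C3

open Pool.Agent.NACert Pool.Agent.NACert.Fast

/-- template -/
def raqT : Tm :=
  (.cons true 1 (.m (.m (.v 0) (.v 1)) (.v 1))
  (.cons false 1 (.m (.v 0) (.m (.v 1) (.v 1)))
  .nil))

/-- template -/
def malqT : Tm :=
  (.cons true 1 (.m (.m (.v 0) (.v 1)) (.m (.v 0) (.v 2)))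
  (.cons false 1 (.m (.m (.v 0) (.v 1)) (.m (.v 2) (.v 0)))
  (.cons false 1 (.m (.m (.v 1) (.v 0)) (.m (.v 0) (.v 2)))
  (.cons true 1 (.m (.m (.v 1) (.v 0)) (.m (.v 2) (.v 0)))
  (.cons false 1 (.m (.m (.v 0) (.v 2)) (.m (.v 0) (.v 1)))
  (.cons true 1 (.m (.m (.v 0) (.v 2)) (.m (.v 1) (.v 0)))
  (.cons true 1 (.m (.m (.v 2) (.v 0)) (.m (.v 0) (.v 1)))
  (.cons false 1 (.m (.m (.v 2) (.v 0)) (.m (.v 1) (.v 0)))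
  (.cons false 1 (.m (.m (.m (.v 0) (.v 1)) (.v 2)) (.v 0))
  (.cons true 1 (.m (.m (.m (.v 1) (.v 0)) (.v 2)) (.v 0))
  (.cons true 1 (.m (.m (.v 2) (.m (.v 0) (.v 1))) (.v 0))
  (.cons false 1 (.m (.m (.v 2) (.m (.v 1) (.v 0))) (.v 0))
  (.cons true 1 (.m (.v 0) (.m (.m (.v 0) (.v 1)) (.v 2)))
  (.cons false 1 (.m (.v 0) (.m (.m (.v 1) (.v 0)) (.v 2)))
  (.cons false 1 (.m (.v 0) (.m (.v 2) (.m (.v 0) (.v 1))))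
  (.cons true 1 (.m (.v 0) (.m (.v 2) (.m (.v 1) (.v 0))))
  (.cons false 1 (.m (.m (.m (.v 1) (.v 2)) (.v 0)) (.v 0))
  (.cons true 1 (.m (.m (.m (.v 2) (.v 1)) (.v 0)) (.v 0))
  (.cons true 1 (.m (.m (.v 0) (.m (.v 1) (.v 2))) (.v 0))
  (.cons false 1 (.m (.m (.v 0) (.m (.v 2) (.v 1))) (.v 0))
  (.cons true 1 (.m (.v 0) (.m (.m (.v 1) (.v 2)) (.v 0)))
  (.cons false 1 (.m (.v 0) (.m (.m (.v 2) (.v 1)) (.v 0)))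
  (.cons false 1 (.m (.v 0) (.m (.v 0) (.m (.v 1) (.v 2))))
  (.cons true 1 (.m (.v 0) (.m (.v 0) (.m (.v 2) (.v 1))))
  (.cons false 1 (.m (.m (.m (.v 2) (.v 0)) (.v 0)) (.v 1))
  (.cons true 1 (.m (.m (.m (.v 0) (.v 2)) (.v 0)) (.v 1))
  (.cons true 1 (.m (.m (.v 0) (.m (.v 2) (.v 0))) (.v 1))
  (.cons false 1 (.m (.m (.v 0) (.m (.v 0) (.v 2))) (.v 1))
  (.cons true 1 (.m (.v 1) (.m (.m (.v 2) (.v 0)) (.v 0)))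
  (.cons false 1 (.m (.v 1) (.m (.m (.v 0) (.v 2)) (.v 0)))
  (.cons false 1 (.m (.v 1) (.m (.v 0) (.m (.v 2) (.v 0))))
  (.cons true 1 (.m (.v 1) (.m (.v 0) (.m (.v 0) (.v 2))))
  .nil))))))))))))))))))))))))))))))))

/-- template -/
def xT : Tm :=
  (.cons true 1 (.m (.m (.m (.v 0) (.v 1)) (.v 0)) (.v 0))
  (.cons true 1 (.m (.m (.m (.v 0) (.v 0)) (.v 1)) (.v 0))
  (.cons false 1 (.m (.m (.v 0) (.m (.v 1) (.v 0))) (.v 0))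
  (.cons false 1 (.m (.m (.v 0) (.v 0)) (.m (.v 1) (.v 0)))
  .nil))))

/-- template -/
def xLT : Tm :=
  (.cons true 1 (.m (.m (.m (.v 0) (.v 3)) (.v 1)) (.v 2))
  (.cons true 1 (.m (.m (.m (.v 0) (.v 1)) (.v 3)) (.v 2))
  (.cons false 1 (.m (.m (.v 0) (.m (.v 3) (.v 1))) (.v 2))
  (.cons false 1 (.m (.m (.v 0) (.v 1)) (.m (.v 3) (.v 2)))
  (.cons true 1 (.m (.m (.m (.v 0) (.v 3)) (.v 2)) (.v 1))
  (.cons true 1 (.m (.m (.m (.v 0) (.v 2)) (.v 3)) (.v 1))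
  (.cons false 1 (.m (.m (.v 0) (.m (.v 3) (.v 2))) (.v 1))
  (.cons false 1 (.m (.m (.v 0) (.v 2)) (.m (.v 3) (.v 1)))
  (.cons true 1 (.m (.m (.m (.v 1) (.v 3)) (.v 0)) (.v 2))
  (.cons true 1 (.m (.m (.m (.v 1) (.v 0)) (.v 3)) (.v 2))
  (.cons false 1 (.m (.m (.v 1) (.m (.v 3) (.v 0))) (.v 2))
  (.cons false 1 (.m (.m (.v 1) (.v 0)) (.m (.v 3) (.v 2)))
  (.cons true 1 (.m (.m (.m (.v 1) (.v 3)) (.v 2)) (.v 0))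
  (.cons true 1 (.m (.m (.m (.v 1) (.v 2)) (.v 3)) (.v 0))
  (.cons false 1 (.m (.m (.v 1) (.m (.v 3) (.v 2))) (.v 0))
  (.cons false 1 (.m (.m (.v 1) (.v 2)) (.m (.v 3) (.v 0)))
  (.cons true 1 (.m (.m (.m (.v 2) (.v 3)) (.v 0)) (.v 1))
  (.cons true 1 (.m (.m (.m (.v 2) (.v 0)) (.v 3)) (.v 1))
  (.cons false 1 (.m (.m (.v 2) (.m (.v 3) (.v 0))) (.v 1))
  (.cons false 1 (.m (.m (.v 2) (.v 0)) (.m (.v 3) (.v 1)))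
  (.cons true 1 (.m (.m (.m (.v 2) (.v 3)) (.v 1)) (.v 0))
  (.cons true 1 (.m (.m (.m (.v 2) (.v 1)) (.v 3)) (.v 0))
  (.cons false 1 (.m (.m (.v 2) (.m (.v 3) (.v 1))) (.v 0))
  (.cons false 1 (.m (.m (.v 2) (.v 1)) (.m (.v 3) (.v 0)))
  .nil))))))))))))))))))))))))

/-- template -/
def l3T : Tm :=
  (.cons true 1 (.m (.m (.v 1) (.v 0)) (.v 0))
  (.cons true 1 (.m (.m (.v 0) (.v 1)) (.v 0))
  (.cons true 1 (.m (.m (.v 0) (.v 0)) (.v 1))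
  .nil)))

/-- template -/
def l3LT : Tm :=
  (.cons true 1 (.m (.m (.v 2) (.v 0)) (.v 1))
  (.cons true 1 (.m (.m (.v 2) (.v 1)) (.v 0))
  (.cons true 1 (.m (.m (.v 0) (.v 2)) (.v 1))
  (.cons true 1 (.m (.m (.v 1) (.v 2)) (.v 0))
  (.cons true 1 (.m (.m (.v 0) (.v 1)) (.v 2))
  (.cons true 1 (.m (.m (.v 1) (.v 0)) (.v 2))
  .nil))))))

/-- template -/
def m22T : Tm :=
  (.cons true 1 (.m (.v 0) (.m (.v 1) (.m (.v 0) (.v 1))))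
  (.cons false 1 (.m (.m (.v 1) (.m (.v 0) (.v 1))) (.v 0))
  (.cons true 1 (.m (.v 1) (.m (.v 0) (.m (.v 1) (.v 0))))
  (.cons false 1 (.m (.m (.v 0) (.m (.v 1) (.v 0))) (.v 1))
  .nil))))

/-- template -/
def m211T : Tm :=
  (.cons true 1 (.m (.v 0) (.m (.v 1) (.m (.v 0) (.v 2))))
  (.cons true 1 (.m (.v 0) (.m (.v 2) (.m (.v 0) (.v 1))))
  (.cons false 1 (.m (.m (.v 1) (.m (.v 0) (.v 2))) (.v 0))
  (.cons false 1 (.m (.m (.v 2) (.m (.v 0) (.v 1))) (.v 0))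
  (.cons true 1 (.m (.v 1) (.m (.v 0) (.m (.v 2) (.v 0))))
  (.cons true 1 (.m (.v 2) (.m (.v 0) (.m (.v 1) (.v 0))))
  (.cons false 1 (.m (.m (.v 0) (.m (.v 1) (.v 0))) (.v 2))
  (.cons false 1 (.m (.m (.v 0) (.m (.v 2) (.v 0))) (.v 1))
  .nil))))))))

/-- template -/
def m1111T : Tm :=
  (.cons true 1 (.m (.v 0) (.m (.v 2) (.m (.v 1) (.v 3))))
  (.cons true 1 (.m (.v 1) (.m (.v 2) (.m (.v 0) (.v 3))))
  (.cons true 1 (.m (.v 0) (.m (.v 3) (.m (.v 1) (.v 2))))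
  (.cons true 1 (.m (.v 1) (.m (.v 3) (.m (.v 0) (.v 2))))
  (.cons false 1 (.m (.m (.v 2) (.m (.v 0) (.v 3))) (.v 1))
  (.cons false 1 (.m (.m (.v 2) (.m (.v 1) (.v 3))) (.v 0))
  (.cons false 1 (.m (.m (.v 3) (.m (.v 0) (.v 2))) (.v 1))
  (.cons false 1 (.m (.m (.v 3) (.m (.v 1) (.v 2))) (.v 0))
  (.cons true 1 (.m (.v 2) (.m (.v 0) (.m (.v 3) (.v 1))))
  (.cons true 1 (.m (.v 2) (.m (.v 1) (.m (.v 3) (.v 0))))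
  (.cons true 1 (.m (.v 3) (.m (.v 0) (.m (.v 2) (.v 1))))
  (.cons true 1 (.m (.v 3) (.m (.v 1) (.m (.v 2) (.v 0))))
  (.cons false 1 (.m (.m (.v 0) (.m (.v 2) (.v 1))) (.v 3))
  (.cons false 1 (.m (.m (.v 1) (.m (.v 2) (.v 0))) (.v 3))
  (.cons false 1 (.m (.m (.v 0) (.m (.v 3) (.v 1))) (.v 2))
  (.cons false 1 (.m (.m (.v 1) (.m (.v 3) (.v 0))) (.v 2))
  .nil))))))))))))))))

/-- template -/
def n1T : Tm :=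
  (.cons true 1 (.m (.v 2) (.m (.v 1) (.m (.v 0) (.v 0))))
  (.cons false 1 (.m (.v 2) (.m (.m (.v 0) (.v 1)) (.v 0)))
  (.cons true 1 (.m (.v 1) (.m (.m (.v 0) (.v 0)) (.v 2)))
  (.cons true 1 (.m (.v 0) (.m (.m (.v 2) (.v 0)) (.v 1)))
  (.cons false 1 (.m (.m (.v 2) (.v 0)) (.m (.v 0) (.v 1)))
  (.cons true 1 (.m (.m (.v 1) (.v 0)) (.m (.v 0) (.v 2)))
  (.cons true 1 (.m (.m (.v 0) (.m (.v 1) (.v 2))) (.v 0))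
  .nil)))))))

/-- template -/
def n1LT : Tm :=
  (.cons true 1 (.m (.v 3) (.m (.v 2) (.m (.v 0) (.v 1))))
  (.cons true 1 (.m (.v 3) (.m (.v 2) (.m (.v 1) (.v 0))))
  (.cons false 1 (.m (.v 3) (.m (.m (.v 0) (.v 2)) (.v 1)))
  (.cons false 1 (.m (.v 3) (.m (.m (.v 1) (.v 2)) (.v 0)))
  (.cons true 1 (.m (.v 2) (.m (.m (.v 0) (.v 1)) (.v 3)))
  (.cons true 1 (.m (.v 2) (.m (.m (.v 1) (.v 0)) (.v 3)))
  (.cons true 1 (.m (.v 0) (.m (.m (.v 3) (.v 1)) (.v 2)))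
  (.cons true 1 (.m (.v 1) (.m (.m (.v 3) (.v 0)) (.v 2)))
  (.cons false 1 (.m (.m (.v 3) (.v 0)) (.m (.v 1) (.v 2)))
  (.cons false 1 (.m (.m (.v 3) (.v 1)) (.m (.v 0) (.v 2)))
  (.cons true 1 (.m (.m (.v 2) (.v 0)) (.m (.v 1) (.v 3)))
  (.cons true 1 (.m (.m (.v 2) (.v 1)) (.m (.v 0) (.v 3)))
  (.cons true 1 (.m (.m (.v 0) (.m (.v 2) (.v 3))) (.v 1))
  (.cons true 1 (.m (.m (.v 1) (.m (.v 2) (.v 3))) (.v 0))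
  .nil))))))))))))))

/-- template -/
def kT : Tm :=
  (.cons true 1 (.m (.v 1) (.m (.v 0) (.m (.m (.v 0) (.v 0)) (.v 2))))
  (.cons true 1 (.m (.m (.v 1) (.v 0)) (.m (.v 0) (.m (.v 2) (.v 0))))
  (.cons true 1 (.m (.m (.v 0) (.v 1)) (.m (.v 0) (.m (.v 2) (.v 0))))
  (.cons true 1 (.m (.m (.v 0) (.m (.v 0) (.v 1))) (.m (.v 2) (.v 0)))
  (.cons true 1 (.m (.m (.m (.v 0) (.v 0)) (.v 1)) (.m (.v 0) (.v 2)))
  (.cons true 1 (.m (.m (.m (.v 0) (.m (.v 1) (.v 0))) (.v 0)) (.v 2))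
  .nil))))))

/-- template -/
def kLT : Tm :=
  (.cons true 1 (.m (.v 3) (.m (.v 0) (.m (.m (.v 1) (.v 2)) (.v 4))))
  (.cons true 1 (.m (.m (.v 3) (.v 0)) (.m (.v 1) (.m (.v 4) (.v 2))))
  (.cons true 1 (.m (.m (.v 0) (.v 3)) (.m (.v 1) (.m (.v 4) (.v 2))))
  (.cons true 1 (.m (.m (.v 0) (.m (.v 1) (.v 3))) (.m (.v 4) (.v 2)))
  (.cons true 1 (.m (.m (.m (.v 0) (.v 1)) (.v 3)) (.m (.v 2) (.v 4)))
  (.cons true 1 (.m (.m (.m (.v 0) (.m (.v 3) (.v 1))) (.v 2)) (.v 4))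
  (.cons true 1 (.m (.v 3) (.m (.v 0) (.m (.m (.v 2) (.v 1)) (.v 4))))
  (.cons true 1 (.m (.m (.v 3) (.v 0)) (.m (.v 2) (.m (.v 4) (.v 1))))
  (.cons true 1 (.m (.m (.v 0) (.v 3)) (.m (.v 2) (.m (.v 4) (.v 1))))
  (.cons true 1 (.m (.m (.v 0) (.m (.v 2) (.v 3))) (.m (.v 4) (.v 1)))
  (.cons true 1 (.m (.m (.m (.v 0) (.v 2)) (.v 3)) (.m (.v 1) (.v 4)))
  (.cons true 1 (.m (.m (.m (.v 0) (.m (.v 3) (.v 2))) (.v 1)) (.v 4))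
  (.cons true 1 (.m (.v 3) (.m (.v 1) (.m (.m (.v 0) (.v 2)) (.v 4))))
  (.cons true 1 (.m (.m (.v 3) (.v 1)) (.m (.v 0) (.m (.v 4) (.v 2))))
  (.cons true 1 (.m (.m (.v 1) (.v 3)) (.m (.v 0) (.m (.v 4) (.v 2))))
  (.cons true 1 (.m (.m (.v 1) (.m (.v 0) (.v 3))) (.m (.v 4) (.v 2)))
  (.cons true 1 (.m (.m (.m (.v 1) (.v 0)) (.v 3)) (.m (.v 2) (.v 4)))
  (.cons true 1 (.m (.m (.m (.v 1) (.m (.v 3) (.v 0))) (.v 2)) (.v 4))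
  (.cons true 1 (.m (.v 3) (.m (.v 1) (.m (.m (.v 2) (.v 0)) (.v 4))))
  (.cons true 1 (.m (.m (.v 3) (.v 1)) (.m (.v 2) (.m (.v 4) (.v 0))))
  (.cons true 1 (.m (.m (.v 1) (.v 3)) (.m (.v 2) (.m (.v 4) (.v 0))))
  (.cons true 1 (.m (.m (.v 1) (.m (.v 2) (.v 3))) (.m (.v 4) (.v 0)))
  (.cons true 1 (.m (.m (.m (.v 1) (.v 2)) (.v 3)) (.m (.v 0) (.v 4)))
  (.cons true 1 (.m (.m (.m (.v 1) (.m (.v 3) (.v 2))) (.v 0)) (.v 4))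
  (.cons true 1 (.m (.v 3) (.m (.v 2) (.m (.m (.v 0) (.v 1)) (.v 4))))
  (.cons true 1 (.m (.m (.v 3) (.v 2)) (.m (.v 0) (.m (.v 4) (.v 1))))
  (.cons true 1 (.m (.m (.v 2) (.v 3)) (.m (.v 0) (.m (.v 4) (.v 1))))
  (.cons true 1 (.m (.m (.v 2) (.m (.v 0) (.v 3))) (.m (.v 4) (.v 1)))
  (.cons true 1 (.m (.m (.m (.v 2) (.v 0)) (.v 3)) (.m (.v 1) (.v 4)))
  (.cons true 1 (.m (.m (.m (.v 2) (.m (.v 3) (.v 0))) (.v 1)) (.v 4))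
  (.cons true 1 (.m (.v 3) (.m (.v 2) (.m (.m (.v 1) (.v 0)) (.v 4))))
  (.cons true 1 (.m (.m (.v 3) (.v 2)) (.m (.v 1) (.m (.v 4) (.v 0))))
  (.cons true 1 (.m (.m (.v 2) (.v 3)) (.m (.v 1) (.m (.v 4) (.v 0))))
  (.cons true 1 (.m (.m (.v 2) (.m (.v 1) (.v 3))) (.m (.v 4) (.v 0)))
  (.cons true 1 (.m (.m (.m (.v 2) (.v 1)) (.v 3)) (.m (.v 0) (.v 4)))
  (.cons true 1 (.m (.m (.m (.v 2) (.m (.v 3) (.v 1))) (.v 0)) (.v 4))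
  .nil))))))))))))))))))))))))))))))))))))

/-- template -/
def fT : Tm :=
  (.cons true 1 (.m (.m (.v 0) (.v 0)) (.m (.v 0) (.v 1)))
  (.cons false 1 (.m (.v 0) (.m (.m (.v 0) (.v 0)) (.v 1)))
  .nil))

/-- template -/
def fLT : Tm :=
  (.cons true 1 (.m (.m (.v 0) (.v 1)) (.m (.v 2) (.v 3)))
  (.cons false 1 (.m (.v 0) (.m (.m (.v 1) (.v 2)) (.v 3)))
  (.cons true 1 (.m (.m (.v 0) (.v 2)) (.m (.v 1) (.v 3)))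
  (.cons false 1 (.m (.v 0) (.m (.m (.v 2) (.v 1)) (.v 3)))
  (.cons true 1 (.m (.m (.v 1) (.v 0)) (.m (.v 2) (.v 3)))
  (.cons false 1 (.m (.v 1) (.m (.m (.v 0) (.v 2)) (.v 3)))
  (.cons true 1 (.m (.m (.v 1) (.v 2)) (.m (.v 0) (.v 3)))
  (.cons false 1 (.m (.v 1) (.m (.m (.v 2) (.v 0)) (.v 3)))
  (.cons true 1 (.m (.m (.v 2) (.v 0)) (.m (.v 1) (.v 3)))
  (.cons false 1 (.m (.v 2) (.m (.m (.v 0) (.v 1)) (.v 3)))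
  (.cons true 1 (.m (.m (.v 2) (.v 1)) (.m (.v 0) (.v 3)))
  (.cons false 1 (.m (.v 2) (.m (.m (.v 1) (.v 0)) (.v 3)))
  .nil))))))))))))

/-- template -/
def gT : Tm :=
  (.cons true 1 (.m (.v 1) (.m (.v 0) (.m (.v 1) (.v 0))))
  (.cons false 1 (.m (.v 0) (.m (.v 0) (.m (.v 1) (.v 1))))
  .nil))

/-- template -/
def gLT : Tm :=
  (.cons true 1 (.m (.v 2) (.m (.v 0) (.m (.v 3) (.v 1))))
  (.cons false 1 (.m (.v 0) (.m (.v 1) (.m (.v 2) (.v 3))))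
  (.cons true 1 (.m (.v 2) (.m (.v 1) (.m (.v 3) (.v 0))))
  (.cons false 1 (.m (.v 1) (.m (.v 0) (.m (.v 2) (.v 3))))
  (.cons true 1 (.m (.v 3) (.m (.v 0) (.m (.v 2) (.v 1))))
  (.cons false 1 (.m (.v 0) (.m (.v 1) (.m (.v 3) (.v 2))))
  (.cons true 1 (.m (.v 3) (.m (.v 1) (.m (.v 2) (.v 0))))
  (.cons false 1 (.m (.v 1) (.m (.v 0) (.m (.v 3) (.v 2))))
  .nil))))))))

/-- template -/
def omT : Tm :=
  (.cons true 1 (.m (.m (.v 0) (.v 1)) (.v 2))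
  (.cons false 1 (.m (.v 0) (.m (.v 1) (.v 2)))
  (.cons true 1 (.m (.m (.v 1) (.v 0)) (.v 2))
  (.cons false 1 (.m (.v 1) (.m (.v 0) (.v 2)))
  .nil))))

/-- template -/
def derT : Tm :=
  (.cons true 1 (.m (.m (.v 1) (.v 2)) (.v 0))
  (.cons false 1 (.m (.v 0) (.m (.v 1) (.v 2)))
  (.cons false 1 (.m (.v 1) (.m (.v 2) (.v 0)))
  (.cons true 1 (.m (.v 1) (.m (.v 0) (.v 2)))
  (.cons false 1 (.m (.m (.v 1) (.v 0)) (.v 2))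
  (.cons true 1 (.m (.m (.v 0) (.v 1)) (.v 2))
  .nil))))))

/-- template -/
def czT : Tm :=
  (.cons true 1 (.m (.v 0) (.v 1))
  (.cons false 1 (.m (.v 1) (.v 0))
  .nil))

/-- template -/
def kaT : Tm :=
  (.cons true 1 (.m (.v 0) (.m (.m (.v 1) (.v 2)) (.v 3)))
  (.cons true 1 (.m (.v 0) (.m (.m (.v 2) (.v 1)) (.v 3)))
  (.cons false 1 (.m (.v 0) (.m (.v 1) (.m (.v 2) (.v 3))))
  (.cons false 1 (.m (.v 0) (.m (.v 2) (.m (.v 1) (.v 3))))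
  .nil))))

/-- template -/
def kbT : Tm :=
  (.cons true 1 (.m (.m (.m (.v 1) (.v 2)) (.v 3)) (.v 0))
  (.cons true 1 (.m (.m (.m (.v 2) (.v 1)) (.v 3)) (.v 0))
  (.cons false 1 (.m (.m (.v 1) (.m (.v 2) (.v 3))) (.v 0))
  (.cons false 1 (.m (.m (.v 2) (.m (.v 1) (.v 3))) (.v 0))
  .nil))))

/-- template -/
def thcT : Tm :=
  (.cons true 1 (.m (.m (.m (.v 0) (.v 1)) (.v 2)) (.v 3))
  (.cons false 1 (.m (.m (.v 0) (.m (.v 1) (.v 2))) (.v 3))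
  (.cons false 1 (.m (.v 3) (.m (.m (.v 0) (.v 1)) (.v 2)))
  (.cons true 1 (.m (.v 3) (.m (.v 0) (.m (.v 1) (.v 2))))
  .nil))))

/-- template -/
def k2T : Tm :=
  (.cons true 1 (.m (.m (.v 0) (.v 1)) (.v 2))
  (.cons false 1 (.m (.v 2) (.m (.v 0) (.v 1)))
  (.cons false 1 (.m (.v 0) (.m (.v 1) (.v 2)))
  (.cons true 1 (.m (.v 0) (.m (.v 2) (.v 1)))
  .nil))))

/-- template -/
def t4T : Tm :=
  (.cons true 1 (.m (.m (.v 0) (.v 1)) (.m (.v 1) (.v 2)))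
  (.cons false 1 (.m (.v 0) (.m (.v 1) (.m (.v 1) (.v 2))))
  (.cons false 1 (.m (.m (.m (.v 0) (.v 1)) (.v 2)) (.v 1))
  (.cons true 1 (.m (.m (.v 0) (.m (.v 1) (.v 2))) (.v 1))
  .nil))))

/-- template -/
def t4LT : Tm :=
  (.cons true 1 (.m (.m (.v 0) (.v 1)) (.m (.v 2) (.v 3)))
  (.cons true 1 (.m (.m (.v 0) (.v 2)) (.m (.v 1) (.v 3)))
  (.cons false 1 (.m (.v 0) (.m (.v 1) (.m (.v 2) (.v 3))))
  (.cons false 1 (.m (.v 0) (.m (.v 2) (.m (.v 1) (.v 3))))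
  (.cons false 1 (.m (.m (.m (.v 0) (.v 1)) (.v 3)) (.v 2))
  (.cons false 1 (.m (.m (.m (.v 0) (.v 2)) (.v 3)) (.v 1))
  (.cons true 1 (.m (.m (.v 0) (.m (.v 1) (.v 3))) (.v 2))
  (.cons true 1 (.m (.m (.v 0) (.m (.v 2) (.v 3))) (.v 1))
  .nil))))))))

/-- template -/
def t5T : Tm :=
  (.cons true 1 (.m (.m (.m (.v 0) (.v 1)) (.v 2)) (.m (.v 1) (.v 3)))
  (.cons false 1 (.m (.m (.m (.v 0) (.v 1)) (.v 2)) (.m (.v 3) (.v 1)))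
  (.cons false 1 (.m (.m (.v 0) (.m (.v 1) (.v 2))) (.m (.v 1) (.v 3)))
  (.cons true 1 (.m (.m (.v 0) (.m (.v 1) (.v 2))) (.m (.v 3) (.v 1)))
  .nil))))

/-- template -/
def t5LT : Tm :=
  (.cons true 1 (.m (.m (.m (.v 0) (.v 1)) (.v 3)) (.m (.v 2) (.v 4)))
  (.cons true 1 (.m (.m (.m (.v 0) (.v 2)) (.v 3)) (.m (.v 1) (.v 4)))
  (.cons false 1 (.m (.m (.m (.v 0) (.v 1)) (.v 3)) (.m (.v 4) (.v 2)))
  (.cons false 1 (.m (.m (.m (.v 0) (.v 2)) (.v 3)) (.m (.v 4) (.v 1)))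
  (.cons false 1 (.m (.m (.v 0) (.m (.v 1) (.v 3))) (.m (.v 2) (.v 4)))
  (.cons false 1 (.m (.m (.v 0) (.m (.v 2) (.v 3))) (.m (.v 1) (.v 4)))
  (.cons true 1 (.m (.m (.v 0) (.m (.v 1) (.v 3))) (.m (.v 4) (.v 2)))
  (.cons true 1 (.m (.m (.v 0) (.m (.v 2) (.v 3))) (.m (.v 4) (.v 1)))
  .nil))))))))

/-- template -/
def thoT : Tm :=
  (.cons true 1 (.m (.m (.m (.m (.v 0) (.v 1)) (.v 2)) (.v 3)) (.v 4))
  (.cons false 1 (.m (.m (.m (.v 0) (.m (.v 1) (.v 2))) (.v 3)) (.v 4))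
  (.cons false 1 (.m (.m (.m (.v 0) (.v 1)) (.v 2)) (.m (.v 3) (.v 4)))
  (.cons true 1 (.m (.m (.v 0) (.m (.v 1) (.v 2))) (.m (.v 3) (.v 4)))
  (.cons true 1 (.m (.m (.v 3) (.m (.m (.v 0) (.v 1)) (.v 2))) (.v 4))
  (.cons false 1 (.m (.m (.v 3) (.m (.v 0) (.m (.v 1) (.v 2)))) (.v 4))
  (.cons false 1 (.m (.v 3) (.m (.m (.m (.v 0) (.v 1)) (.v 2)) (.v 4)))
  (.cons true 1 (.m (.v 3) (.m (.m (.v 0) (.m (.v 1) (.v 2))) (.v 4)))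
  .nil))))))))

/-- template -/
def t2T : Tm :=
  (.cons true 1 (.m (.m (.m (.m (.v 0) (.v 1)) (.v 2)) (.v 3)) (.v 4))
  (.cons false 1 (.m (.m (.m (.v 0) (.m (.v 1) (.v 2))) (.v 3)) (.v 4))
  (.cons false 1 (.m (.v 4) (.m (.m (.m (.v 0) (.v 1)) (.v 2)) (.v 3)))
  (.cons true 1 (.m (.v 4) (.m (.m (.v 0) (.m (.v 1) (.v 2))) (.v 3)))
  (.cons false 1 (.m (.m (.m (.v 0) (.v 1)) (.v 2)) (.m (.v 3) (.v 4)))
  (.cons true 1 (.m (.m (.m (.v 0) (.v 1)) (.v 2)) (.m (.v 4) (.v 3)))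
  (.cons true 1 (.m (.m (.v 0) (.m (.v 1) (.v 2))) (.m (.v 3) (.v 4)))
  (.cons false 1 (.m (.m (.v 0) (.m (.v 1) (.v 2))) (.m (.v 4) (.v 3)))
  .nil))))))))

/-- template -/
def hhT : Tm :=
  (.cons true 1 (.m (.m (.v 0) (.v 1)) (.v 2))
  (.cons false 1 (.m (.m (.v 1) (.v 0)) (.v 2))
  (.cons false 1 (.m (.v 2) (.m (.v 0) (.v 1)))
  (.cons true 1 (.m (.v 2) (.m (.v 1) (.v 0)))
  .nil))))

/-- template -/
def zaT : Tm :=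
  (.cons true 1 (.m (.m (.v 0) (.v 1)) (.v 2))
  (.cons false 1 (.m (.v 0) (.m (.v 1) (.v 2)))
  .nil))

/-- template -/
def zbT : Tm :=
  (.cons true 1 (.m (.m (.v 1) (.v 0)) (.v 2))
  (.cons false 1 (.m (.v 1) (.m (.v 0) (.v 2)))
  .nil))

/-- template -/
def zcT : Tm :=
  (.cons true 1 (.m (.m (.v 1) (.v 2)) (.v 0))
  (.cons false 1 (.m (.v 1) (.m (.v 2) (.v 0)))
  .nil))

/-- template -/
def pbT : Tm :=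
  (.cons true 1 (.m (.m (.m (.v 8) (.v 9)) (.v 10)) (.v 5))
  (.cons false 1 (.m (.m (.v 8) (.m (.v 9) (.v 10))) (.v 5))
  (.cons true 1 (.m (.m (.m (.v 9) (.v 8)) (.v 10)) (.v 5))
  (.cons false 1 (.m (.m (.v 9) (.m (.v 8) (.v 10))) (.v 5))
  .nil))))

/-- template -/
def pcT : Tm :=
  (.cons true 1 (.m (.m (.m (.v 8) (.v 9)) (.v 10)) (.v 6))
  (.cons false 1 (.m (.m (.v 8) (.m (.v 9) (.v 10))) (.v 6))
  (.cons true 1 (.m (.m (.m (.v 9) (.v 8)) (.v 10)) (.v 6))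
  (.cons false 1 (.m (.m (.v 9) (.m (.v 8) (.v 10))) (.v 6))
  .nil))))

/-- template -/
def pyT : Tm :=
  (.cons true 1 (.m (.m (.m (.v 8) (.v 9)) (.v 10)) (.v 7))
  (.cons false 1 (.m (.m (.v 8) (.m (.v 9) (.v 10))) (.v 7))
  (.cons true 1 (.m (.m (.m (.v 9) (.v 8)) (.v 10)) (.v 7))
  (.cons false 1 (.m (.m (.v 9) (.m (.v 8) (.v 10))) (.v 7))
  .nil))))

/-- template -/
def pbcT : Tm :=
  (.cons true 1 (.m (.m (.m (.v 8) (.v 9)) (.v 10)) (.m (.v 5) (.v 2)))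
  (.cons true 1 (.m (.m (.m (.v 8) (.v 9)) (.v 10)) (.m (.v 1) (.v 6)))
  (.cons false 1 (.m (.m (.v 8) (.m (.v 9) (.v 10))) (.m (.v 5) (.v 2)))
  (.cons false 1 (.m (.m (.v 8) (.m (.v 9) (.v 10))) (.m (.v 1) (.v 6)))
  (.cons true 1 (.m (.m (.m (.v 9) (.v 8)) (.v 10)) (.m (.v 5) (.v 2)))
  (.cons true 1 (.m (.m (.m (.v 9) (.v 8)) (.v 10)) (.m (.v 1) (.v 6)))
  (.cons false 1 (.m (.m (.v 9) (.m (.v 8) (.v 10))) (.m (.v 5) (.v 2)))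
  (.cons false 1 (.m (.m (.v 9) (.m (.v 8) (.v 10))) (.m (.v 1) (.v 6)))
  .nil))))))))

/-- template -/
def pcbT : Tm :=
  (.cons true 1 (.m (.m (.m (.v 8) (.v 9)) (.v 10)) (.m (.v 6) (.v 1)))
  (.cons true 1 (.m (.m (.m (.v 8) (.v 9)) (.v 10)) (.m (.v 2) (.v 5)))
  (.cons false 1 (.m (.m (.v 8) (.m (.v 9) (.v 10))) (.m (.v 6) (.v 1)))
  (.cons false 1 (.m (.m (.v 8) (.m (.v 9) (.v 10))) (.m (.v 2) (.v 5)))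
  (.cons true 1 (.m (.m (.m (.v 9) (.v 8)) (.v 10)) (.m (.v 6) (.v 1)))
  (.cons true 1 (.m (.m (.m (.v 9) (.v 8)) (.v 10)) (.m (.v 2) (.v 5)))
  (.cons false 1 (.m (.m (.v 9) (.m (.v 8) (.v 10))) (.m (.v 6) (.v 1)))
  (.cons false 1 (.m (.m (.v 9) (.m (.v 8) (.v 10))) (.m (.v 2) (.v 5)))
  .nil))))))))

/-- template -/
def pbyT : Tm :=
  (.cons true 1 (.m (.m (.m (.v 8) (.v 9)) (.v 10)) (.m (.v 5) (.v 3)))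
  (.cons true 1 (.m (.m (.m (.v 8) (.v 9)) (.v 10)) (.m (.v 1) (.v 7)))
  (.cons false 1 (.m (.m (.v 8) (.m (.v 9) (.v 10))) (.m (.v 5) (.v 3)))
  (.cons false 1 (.m (.m (.v 8) (.m (.v 9) (.v 10))) (.m (.v 1) (.v 7)))
  (.cons true 1 (.m (.m (.m (.v 9) (.v 8)) (.v 10)) (.m (.v 5) (.v 3)))
  (.cons true 1 (.m (.m (.m (.v 9) (.v 8)) (.v 10)) (.m (.v 1) (.v 7)))
  (.cons false 1 (.m (.m (.v 9) (.m (.v 8) (.v 10))) (.m (.v 5) (.v 3)))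
  (.cons false 1 (.m (.m (.v 9) (.m (.v 8) (.v 10))) (.m (.v 1) (.v 7)))
  .nil))))))))

/-- template -/
def pybT : Tm :=
  (.cons true 1 (.m (.m (.m (.v 8) (.v 9)) (.v 10)) (.m (.v 7) (.v 1)))
  (.cons true 1 (.m (.m (.m (.v 8) (.v 9)) (.v 10)) (.m (.v 3) (.v 5)))
  (.cons false 1 (.m (.m (.v 8) (.m (.v 9) (.v 10))) (.m (.v 7) (.v 1)))
  (.cons false 1 (.m (.m (.v 8) (.m (.v 9) (.v 10))) (.m (.v 3) (.v 5)))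
  (.cons true 1 (.m (.m (.m (.v 9) (.v 8)) (.v 10)) (.m (.v 7) (.v 1)))
  (.cons true 1 (.m (.m (.m (.v 9) (.v 8)) (.v 10)) (.m (.v 3) (.v 5)))
  (.cons false 1 (.m (.m (.v 9) (.m (.v 8) (.v 10))) (.m (.v 7) (.v 1)))
  (.cons false 1 (.m (.m (.v 9) (.m (.v 8) (.v 10))) (.m (.v 3) (.v 5)))
  .nil))))))))

/-- template -/
def pcyT : Tm :=
  (.cons true 1 (.m (.m (.m (.v 8) (.v 9)) (.v 10)) (.m (.v 6) (.v 3)))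
  (.cons true 1 (.m (.m (.m (.v 8) (.v 9)) (.v 10)) (.m (.v 2) (.v 7)))
  (.cons false 1 (.m (.m (.v 8) (.m (.v 9) (.v 10))) (.m (.v 6) (.v 3)))
  (.cons false 1 (.m (.m (.v 8) (.m (.v 9) (.v 10))) (.m (.v 2) (.v 7)))
  (.cons true 1 (.m (.m (.m (.v 9) (.v 8)) (.v 10)) (.m (.v 6) (.v 3)))
  (.cons true 1 (.m (.m (.m (.v 9) (.v 8)) (.v 10)) (.m (.v 2) (.v 7)))
  (.cons false 1 (.m (.m (.v 9) (.m (.v 8) (.v 10))) (.m (.v 6) (.v 3)))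
  (.cons false 1 (.m (.m (.v 9) (.m (.v 8) (.v 10))) (.m (.v 2) (.v 7)))
  .nil))))))))

/-- template -/
def pycT : Tm :=
  (.cons true 1 (.m (.m (.m (.v 8) (.v 9)) (.v 10)) (.m (.v 7) (.v 2)))
  (.cons true 1 (.m (.m (.m (.v 8) (.v 9)) (.v 10)) (.m (.v 3) (.v 6)))
  (.cons false 1 (.m (.m (.v 8) (.m (.v 9) (.v 10))) (.m (.v 7) (.v 2)))
  (.cons false 1 (.m (.m (.v 8) (.m (.v 9) (.v 10))) (.m (.v 3) (.v 6)))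
  (.cons true 1 (.m (.m (.m (.v 9) (.v 8)) (.v 10)) (.m (.v 7) (.v 2)))
  (.cons true 1 (.m (.m (.m (.v 9) (.v 8)) (.v 10)) (.m (.v 3) (.v 6)))
  (.cons false 1 (.m (.m (.v 9) (.m (.v 8) (.v 10))) (.m (.v 7) (.v 2)))
  (.cons false 1 (.m (.m (.v 9) (.m (.v 8) (.v 10))) (.m (.v 3) (.v 6)))
  .nil))))))))

end Pool.Agent.C3
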