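import Pool.Agent.NACert.Fast

/-!
# Certificates in characteristic three

The certificates of `NACert.Fast`, with a final check modulo `3`.
-/

noncomputable section

namespace Pool.Agent.C3

open Pool.Agent.NACert Pool.Agent.NACert.Fast

/-- the double of a combination -/
def dbl (q : L) : L :=
  @L.rec (fun _ => L) .nil (fun t c _ ih => force (Nat.add c c) fun e => .cons t e ih) q

theorem dbl_c (t c : ℕ) (q : L) : dbl (.cons t c q) = .cons t (c + c) (dbl q) := rfl

theorem ev_dbl {A : Type*} [NonUnitalNonAssocRing A] (ρ : ℕ → A) (q : L) :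
    (dbl q).ev ρ = (2 : ℕ) • q.ev ρ := by
  induction q with
  | nil => show (0 : A) = _; simp [L.ev]
  | cons t c q ih =>
    rw [dbl_c]
    simp only [L.ev, ih, smul_add, ← mul_smul, two_mul]

/-- all coefficients are divisible by `3` -/
def dv3 (q : L) : Bool :=
  @L.rec (fun _ => Bool) true
    (fun _ c _ ih => bc false ih (Nat.beq (Nat.mod c (nat_lit 3)) (nat_lit 0))) q

theorem ev_dv3 {A : Type*} [NonUnitalNonAssocRing A] (h3 : ∀ a : A, (3 : ℕ) • a = 0) (ρ : ℕ → A)
    (q : L) (h : dv3 q = true) : q.ev ρ = 0 := by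
  induction q with
  | nil => rfl
  | cons t c q ih =>
    have h' : bc false (dv3 q) (Nat.beq (Nat.mod c (nat_lit 3)) (nat_lit 0)) = true := h
    cases h1 : Nat.beq (Nat.mod c (nat_lit 3)) (nat_lit 0) with
    | false => rw [h1, bc_false] at h'; exact absurd h' (by simp)
    | true =>
      rw [h1, bc_true] at h'
      have h2 : c % 3 = 0 := Nat.eq_of_beq_eq_true h1
      obtain ⟨d, hd⟩ := Nat.dvd_of_mod_eq_zero h2
      rw [L.ev, ih h', hd, mul_comm, mul_smul, h3, smul_zero, add_zero]

/-- positive part congruent to negative part modulo `3` -/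
def fin3 (l : List D) : Bool :=
  @List.rec D (fun _ => Bool) true (fun a _ ih => bc false ih
    (@D.rec (fun _ => Bool) (fun p q => dv3 (mg p (dbl q))) a)) l

theorem evD_fin3 {A : Type*} [NonUnitalNonAssocRing A] (h3 : ∀ a : A, (3 : ℕ) • a = 0)
    (ρ : ℕ → A) (l : List D) (h : fin3 l = true) : evD ρ l = 0 := by
  induction l with
  | nil => rfl
  | cons a l ih =>
    cases a with
    | mk p q =>
      have h' : bc false (fin3 l) (dv3 (mg p (dbl q))) = true := h
      cases h1 : dv3 (mg p (dbl q)) with
      | false => rw [h1, bc_false] at h'; exact absurd h' (by simp)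
      | true =>
        rw [h1, bc_true] at h'
        have h2 := ev_dv3 h3 ρ _ h1
        rw [ev_mg, ev_dbl] at h2
        have h4 := h3 (q.ev ρ)
        rw [evD, ih h', D.ev, add_zero]
        have h5 : p.ev ρ - q.ev ρ = (p.ev ρ + 2 • q.ev ρ) - 3 • q.ev ρ := by
          rw [succ_nsmul (q.ev ρ) 2]; abel
        rw [h5, h2, h4, sub_zero]

/-- the check -/
def check3 (K : Kn) (target : Tm) (cert : List ℕ) : Bool :=
  fin3 (ms (nat_lit 24) (ins true (nat_lit 1) (fun i => Nat.add i i) .nil target (items K cert)))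

/-- a certificate proves an identity in characteristic three -/
theorem ev_of_check3 {A : Type*} [NonUnitalNonAssocRing A] (h3 : ∀ a : A, (3 : ℕ) • a = 0)
    {ρ : ℕ → A} (K : Kn) (hK : K.Holds ρ) (target : Tm) (cert : List ℕ)
    (h : check3 K target cert = true) : target.ev ρ = 0 := by
  have h1 := evD_fin3 h3 ρ _ h
  rw [evD_ms, evD_ins, evD_items ρ K hK, add_zero] at h1
  have h2 : (fun n => Fast.gv ρ (Nat.add n n)) = ρ := funext fun n => Fast.gv_even ρ n
  rw [h2] at h1
  simpa [sg, bc_true, C.ap] using h1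

/-- a certificate proves that an expression vanishes in characteristic three -/
theorem ev_of_check3E {A : Type*} [NonUnitalNonAssocRing A] (h3 : ∀ a : A, (3 : ℕ) • a = 0)
    {ρ : ℕ → A} (K : Kn) (hK : K.Holds ρ) (target : E) (cert : List ℕ)
    (h : check3 K (ofP target.p) cert = true) : target.ev ρ = 0 := by
  rw [← evP_p, ← ev_ofP]
  exact ev_of_check3 h3 K hK _ cert h

end Pool.Agent.C3
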